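import Pool.Agent.Helper93.LCH.Basic2

/-!
Elementary facts on expansions and on sums of expressions (MP_b555a2_al, ChainCriterion, helper93).
-/

namespace LCH

universe u v w

set_option linter.unusedSectionVars false

section Sums

variable {K : Type u} {G : Type v} [Field K] [Group G]

theorem sumE_supp (a : Ex K G) (l : List (Ex K G)) (g : G) :
    g ∈ (Ex.sumE a l).supp ↔ g ∈ a.supp ∨ ∃ b ∈ l, g ∈ b.supp := by
  induction l generalizing a with
  | nil =>
    constructor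
    · intro h; exact Or.inl h
    · rintro (h | ⟨b, hb, _⟩)
      · exact h
      · exact absurd hb List.not_mem_nil
  | cons b l ih =>
    change g ∈ a.supp ∪ (Ex.sumE b l).supp ↔ _
    rw [Set.mem_union, ih b]
    constructor
    · rintro (h | h | ⟨c, hc, h⟩)
      · exact Or.inl h
      · exact Or.inr ⟨b, List.mem_cons_self, h⟩
      · exact Or.inr ⟨c, List.mem_cons_of_mem _ hc, h⟩
    · rintro (h | ⟨c, hc, h⟩)
      · exact Or.inl h
      · rcases List.mem_cons.1 hc with rfl | hc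
        · exact Or.inr (Or.inl h)
        · exact Or.inr (Or.inr ⟨c, hc, h⟩)

theorem sumE_hom {χ : G → ℝ} {r : ℝ} (a : Ex K G) (l : List (Ex K G)) (ha : a.Hom χ r)
    (hl : ∀ b ∈ l, b.Hom χ r) : (Ex.sumE a l).Hom χ r := by
  induction l generalizing a with
  | nil => exact ha
  | cons b l ih =>
    exact ⟨ha, ih b (hl b List.mem_cons_self) (fun c hc => hl c (List.mem_cons_of_mem _ hc))⟩

theorem sumE_meas (T : Type w) [MSys T] (a : Ex K G) (l : List (Ex K G)) :
    (Ex.sumE a l).meas T = a.meas T + (l.map (fun b => b.meas T)).sum := by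
  induction l generalizing a with
  | nil =>
    change a.meas T = a.meas T + 0
    rw [add_zero]
  | cons b l ih =>
    change a.meas T + (Ex.sumE b l).meas T = _
    rw [ih b, List.map_cons, List.sum_cons]

theorem sumE_ev (s : Sit G) (a : Ex K G) (l : List (Ex K G)) :
    (Ex.sumE a l).ev s = a.ev s + (l.map (fun b => b.ev s)).sum := by
  induction l generalizing a with
  | nil =>
    change a.ev s = a.ev s + 0
    rw [add_zero]
  | cons b l ih =>
    change a.ev s + (Ex.sumE b l).ev s = _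
    rw [ih b, List.map_cons, List.sum_cons]

/-- sums of finite nonempty families of expressions -/
theorem exists_sum {ι : Type*} (W : Finset ι) (hW : W.Nonempty) (f : ι → Ex K G) :
    ∃ e : Ex K G, (∀ g, g ∈ e.supp ↔ ∃ i ∈ W, g ∈ (f i).supp) ∧
      (∀ (χ : G → ℝ) (r : ℝ), (∀ i ∈ W, (f i).Hom χ r) → e.Hom χ r) ∧
      (∀ (T : Type w) [MSys T], e.meas T = ∑ i ∈ W, (f i).meas T) ∧
      ∀ s : Sit G, e.ev s = ∑ i ∈ W, (f i).ev s := by
  classical
  obtain ⟨i, hi⟩ := hW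
  refine ⟨Ex.sumE (f i) ((W.erase i).toList.map f), ?_, ?_, ?_, ?_⟩
  · intro g
    rw [sumE_supp]
    constructor
    · rintro (h | ⟨b, hb, h⟩)
      · exact ⟨i, hi, h⟩
      · rw [List.mem_map] at hb
        obtain ⟨j, hj, rfl⟩ := hb
        rw [Finset.mem_toList, Finset.mem_erase] at hj
        exact ⟨j, hj.2, h⟩
    · rintro ⟨j, hj, h⟩
      by_cases hij : j = i
      · rw [← hij]; exact Or.inl h
      · right
        refine ⟨f j, ?_, h⟩
        rw [List.mem_map]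
        exact ⟨j, by rw [Finset.mem_toList, Finset.mem_erase]; exact ⟨hij, hj⟩, rfl⟩
  · intro χ r h
    apply sumE_hom _ _ (h i hi)
    intro b hb
    rw [List.mem_map] at hb
    obtain ⟨j, hj, rfl⟩ := hb
    rw [Finset.mem_toList, Finset.mem_erase] at hj
    exact h j hj.2
  · intro T _
    rw [sumE_meas, List.map_map, ← Finset.add_sum_erase W (fun j => (f j).meas T) hi,
      ← Finset.sum_map_toList]
    rfl
  · intro s
    rw [sumE_ev, List.map_map, ← Finset.add_sum_erase W (fun j => (f j).ev s) hi,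
      ← Finset.sum_map_toList]
    rfl

end Sums

section Expansions

variable {A : Type w} [Ring A] {Φ : FR A} {x : A} {S : Set ℝ} {y : ℝ → A}

theorem Expn.congr {y' : ℝ → A} (h : Expn Φ x S y) (he : ∀ r ∈ S, y r = y' r) :
    Expn Φ x S y' := by
  refine ⟨h.1, ?_, ?_⟩
  · intro r hr
    rw [← he r hr]
    exact h.2.1 r hr
  · intro B
    obtain ⟨B', hB'⟩ := h.2.2 B
    refine ⟨B', ?_⟩
    intro B'' hB'' T hT
    have h1 := hB' B'' hB'' T hT
    rw [Finset.sum_congr rfl (fun r hr => he r ((hT r).1 hr).1)] at h1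
    exact h1

theorem Expn.mono_filt {Φ' : FR A} (h : Expn Φ x S y) (hF : ∀ B, Φ.F B ≤ Φ'.F B) :
    Expn Φ' x S y := by
  refine ⟨h.1, ?_, ?_⟩
  · intro r hr
    obtain ⟨b, hb⟩ := h.2.1 r hr
    exact ⟨b, hF _ hb⟩
  · intro B
    obtain ⟨B', hB'⟩ := h.2.2 B
    exact ⟨B', fun B'' hB'' T hT => hF _ (hB' B'' hB'' T hT)⟩

/-- the finite set of exponents below `B` -/
theorem Expn.exists_finset (h : Expn Φ x S y) (B : ℝ) :
    ∃ T : Finset ℝ, ∀ r, r ∈ T ↔ r ∈ S ∧ r < B := by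
  refine ⟨(h.1 B).toFinset, ?_⟩
  intro r
  rw [Set.Finite.mem_toFinset]
  rfl

/-- drop terms that vanish -/
theorem Expn.drop {S' : Set ℝ} (h : Expn Φ x S y) (hS : S' ⊆ S)
    (h0 : ∀ r ∈ S, r ∉ S' → y r = 0) : Expn Φ x S' y := by
  classical
  refine ⟨?_, fun r hr => h.2.1 r (hS hr), ?_⟩
  · intro B
    exact (h.1 B).subset (Set.inter_subset_inter_left _ hS)
  · intro B
    obtain ⟨B', hB'⟩ := h.2.2 B
    refine ⟨B', ?_⟩
    intro B'' hB'' T hT
    obtain ⟨T2, hT2⟩ := h.exists_finset B''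
    have h1 := hB' B'' hB'' T2 hT2
    have h2 : ∑ r ∈ T, y r = ∑ r ∈ T2, y r := by
      apply Finset.sum_subset
      · intro r hr
        exact (hT2 r).2 ⟨hS ((hT r).1 hr).1, ((hT r).1 hr).2⟩
      · intro r hr hr'
        have h3 := (hT2 r).1 hr
        apply h0 r h3.1
        intro h4
        exact hr' ((hT r).2 ⟨h4, h3.2⟩)
    rw [h2]
    exact h1

/-- subtract one term -/
theorem Expn.erase {r0 : ℝ} (h : Expn Φ x S y) (hr : r0 ∈ S) :
    Expn Φ (x - y r0) (S \ {r0}) y := by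
  classical
  refine ⟨?_, fun r hr => h.2.1 r hr.1, ?_⟩
  · intro B
    exact (h.1 B).subset (Set.inter_subset_inter_left _ Set.sdiff_subset)
  · intro B
    obtain ⟨B', hB'⟩ := h.2.2 B
    refine ⟨max B' (r0 + 1), ?_⟩
    intro B'' hB'' T hT
    have h1 : B' ≤ B'' := le_trans (le_max_left _ _) hB''
    have h2 : r0 < B'' := lt_of_lt_of_le (by linarith) (le_trans (le_max_right B' (r0 + 1)) hB'')
    have h3 : r0 ∉ T := by
      intro h4
      exact ((hT r0).1 h4).1.2 rfl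
    have h5 := hB' B'' h1 (insert r0 T) (by
      intro r
      rw [Finset.mem_insert, hT r]
      constructor
      · rintro (rfl | h6)
        · exact ⟨hr, h2⟩
        · exact ⟨h6.1.1, h6.2⟩
      · rintro ⟨h6, h7⟩
        by_cases h8 : r = r0
        · exact Or.inl h8
        · exact Or.inr ⟨⟨h6, h8⟩, h7⟩)
    rw [Finset.sum_insert h3] at h5
    have h6 : x - y r0 - ∑ r ∈ T, y r = x - (y r0 + ∑ r ∈ T, y r) := by abel
    rw [h6]
    exact h5

/-- growth of the terms -/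
theorem Expn.growth (h : Expn Φ x S y) (B : ℝ) : ∃ R : ℝ, ∀ r ∈ S, R ≤ r → y r ∈ Φ.F B := by
  classical
  obtain ⟨B', hB'⟩ := h.2.2 B
  refine ⟨B', ?_⟩
  intro r hr hrB
  obtain ⟨T, hT⟩ := h.exists_finset r
  -- an upper bound `r < q` with no element of `S` in `(r, q)`
  have hfin := h.1 (r + 1)
  obtain ⟨q, hq1, hq2⟩ : ∃ q : ℝ, r < q ∧ ∀ t ∈ S, t < q → t ≤ r := by
    have hfin' : (S ∩ Set.Ioo r (r + 1)).Finite :=
      hfin.subset (fun t ht => ⟨ht.1, ht.2.2⟩)
    rcases Set.eq_empty_or_nonempty (S ∩ Set.Ioo r (r + 1)) with he | hne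
    · refine ⟨r + 1, by linarith, ?_⟩
      intro t ht ht'
      by_contra hc
      push Not at hc
      have : t ∈ S ∩ Set.Ioo r (r + 1) := ⟨ht, hc, ht'⟩
      rw [he] at this
      exact this
    · obtain ⟨q, hq, hq'⟩ := Set.exists_min_image _ (fun t => t) hfin' hne
      refine ⟨q, hq.2.1, ?_⟩
      intro t ht ht'
      by_contra hc
      push Not at hc
      have h2 := hq' t ⟨ht, hc, by linarith [hq.2.2]⟩
      exact absurd ht' (not_lt.2 h2)
  have h1 := hB' r hrB T hT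
  have hrT : r ∉ T := fun h4 => lt_irrefl _ ((hT r).1 h4).2
  have h2 := hB' q (by linarith) (insert r T) (by
    intro t
    rw [Finset.mem_insert, hT t]
    constructor
    · rintro (rfl | h6)
      · exact ⟨hr, hq1⟩
      · exact ⟨h6.1, by linarith [h6.2]⟩
    · rintro ⟨h6, h7⟩
      rcases lt_or_eq_of_le (hq2 t h6 h7) with h8 | h8
      · exact Or.inr ⟨h6, h8⟩
      · exact Or.inl h8)
  rw [Finset.sum_insert hrT] at h2
  have h3 : y r = (x - ∑ r ∈ T, y r) - (x - (y r + ∑ r ∈ T, y r)) := by abel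
  rw [h3]
  exact (Φ.F B).sub_mem h1 h2

/-- a lower bound of the exponents -/
theorem Expn.bddBelow (h : Expn Φ x S y) : ∃ m : ℝ, ∀ r ∈ S, m ≤ r := by
  rcases Set.eq_empty_or_nonempty (S ∩ Set.Iio 0) with he | hne
  · refine ⟨0, ?_⟩
    intro r hr
    by_contra hc
    push Not at hc
    have : r ∈ S ∩ Set.Iio 0 := ⟨hr, hc⟩
    rw [he] at this
    exact this
  · obtain ⟨q, hq, hq'⟩ := Set.exists_min_image _ (fun t => t) (h.1 0) hne
    refine ⟨q, ?_⟩
    intro r hr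
    rcases lt_or_ge r 0 with h1 | h1
    · exact hq' r ⟨hr, h1⟩
    · exact le_trans (le_of_lt hq.2) h1

/-- uniform lower bound of the degrees of the terms -/
theorem Expn.bound (h : Expn Φ x S y) : ∃ c : ℝ, 0 ≤ c ∧ ∀ r ∈ S, y r ∈ Φ.F (-c) := by
  classical
  obtain ⟨R, hR⟩ := h.growth 0
  have hfin := h.1 R
  choose! b hb using h.2.1
  obtain ⟨c, hc⟩ : ∃ c : ℝ, ∀ r ∈ S ∩ Set.Iio R, -c ≤ b r := by
    obtain ⟨m, hm⟩ := (hfin.image b).bddBelow
    refine ⟨-m, ?_⟩
    intro r hr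
    rw [neg_neg]
    exact hm ⟨r, hr, rfl⟩
  refine ⟨max c 0, le_max_right _ _, ?_⟩
  intro r hr
  rcases lt_or_ge r R with h1 | h1
  · have h2 := hc r ⟨hr, h1⟩
    exact Φ.anti _ _ (le_trans (neg_le_neg (le_max_left c 0)) h2) (hb r hr)
  · exact Φ.anti _ _ (by linarith [le_max_right c 0]) (hR r hr h1)

/-- the expanded element has a lower bound -/
theorem Expn.bound_self (h : Expn Φ x S y) : ∃ c : ℝ, 0 ≤ c ∧ x ∈ Φ.F (-c) := by
  obtain ⟨c, hc0, hc⟩ := h.bound
  obtain ⟨B', hB'⟩ := h.2.2 0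
  obtain ⟨T, hT⟩ := h.exists_finset B'
  have h1 := hB' B' (le_refl _) T hT
  refine ⟨c, hc0, ?_⟩
  have h2 : x = (x - ∑ r ∈ T, y r) + ∑ r ∈ T, y r := by abel
  rw [h2]
  refine (Φ.F (-c)).add_mem (Φ.anti _ _ (by linarith) h1) ?_
  exact (Φ.F (-c)).sum_mem (fun r hr => hc r ((hT r).1 hr).1)

theorem Expn.filt_of (h : Expn Φ x S y) {δ : ℝ} (hδ : ∀ r ∈ S, y r ∈ Φ.F δ) : x ∈ Φ.F δ := by
  obtain ⟨B', hB'⟩ := h.2.2 δ
  obtain ⟨T, hT⟩ := h.exists_finset B'
  have h1 := hB' B' (le_refl _) T hT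
  have h2 : x = (x - ∑ r ∈ T, y r) + ∑ r ∈ T, y r := by abel
  rw [h2]
  refine (Φ.F δ).add_mem h1 ?_
  exact (Φ.F δ).sum_mem (fun r hr => hδ r ((hT r).1 hr).1)

/-- a nonempty subset of the exponents has a least element -/
theorem Expn.exists_least (h : Expn Φ x S y) {S' : Set ℝ} (hS : S' ⊆ S) (hne : S'.Nonempty) :
    ∃ r ∈ S', ∀ t ∈ S', r ≤ t := by
  obtain ⟨r, hr⟩ := hne
  have hfin : (S' ∩ Set.Iio (r + 1)).Finite :=
    (h.1 (r + 1)).subset (Set.inter_subset_inter_left _ hS)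
  obtain ⟨q, hq, hq'⟩ := Set.exists_min_image _ (fun t => t) hfin ⟨r, hr, by
    change r < r + 1
    linarith⟩
  refine ⟨q, hq.1, ?_⟩
  intro t ht
  rcases lt_or_ge t (r + 1) with h1 | h1
  · exact hq' t ⟨ht, h1⟩
  · exact le_trans (le_of_lt hq.2) h1

/-- all exponents above a value, except one, are above a larger value -/
theorem Expn.gap (h : Expn Φ x S y) (r0 : ℝ) : ∃ m : ℝ, 0 < m ∧ ∀ r ∈ S, r0 < r → r0 + m ≤ r := by
  rcases Set.eq_empty_or_nonempty {r ∈ S | r0 < r} with he | hne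
  · refine ⟨1, one_pos, ?_⟩
    intro r hr hr'
    have : r ∈ {r ∈ S | r0 < r} := ⟨hr, hr'⟩
    rw [he] at this
    exact this.elim
  · obtain ⟨q, hq, hq'⟩ := h.exists_least (S' := {r ∈ S | r0 < r}) (fun r hr => hr.1) hne
    refine ⟨q - r0, by linarith [hq.2], ?_⟩
    intro r hr hr'
    have := hq' r ⟨hr, hr'⟩
    linarith

end Expansions

section PhiFacts

variable {K : Type u} {G : Type v} [Field K] [Group G] {L : Subgroup G} {χ ψ : G → ℝ}

theorem mem_Phi {ε B : ℝ} {T : Alg K L χ ψ} :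
    T ∈ (Phi K L χ ψ ε).F B ↔ ∀ i : Idx L χ ψ, |i.t| < ε → Fil i.s i.f B (T i) := Iff.rfl

theorem Phi_mono {ε ε' : ℝ} (h : ε' ≤ ε) (B : ℝ) :
    (Phi K L χ ψ ε).F B ≤ (Phi K L χ ψ ε').F B :=
  fun _ hT i hi => hT i (lt_of_lt_of_le hi h)

/-- membership in the filtration, after shrinking, from the homogeneous bound -/
theorem HB.mem_Phi {e : Ex K G} (h : HB e L χ ψ) {r : ℝ} (hr : e.Hom χ r) {b : ℝ} (hb : b < r) :
    ∃ ε : ℝ, 0 < ε ∧ e.evA L χ ψ ∈ (Phi K L χ ψ ε).F b := by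
  obtain ⟨C, hC⟩ := h r hr
  refine ⟨(r - b) / (|C| + 1), div_pos (by linarith) (by positivity), ?_⟩
  intro i hi
  have h1 := hC i
  refine h1.anti ?_
  have h2 : |i.t| * (|C| + 1) < r - b := (lt_div_iff₀ (by positivity)).1 hi
  have h3 : C * |i.t| ≤ |i.t| * (|C| + 1) := by
    have h4 : C * |i.t| ≤ |C| * |i.t| := mul_le_mul_of_nonneg_right (le_abs_self C) (abs_nonneg _)
    have h5 : 0 ≤ |i.t| := abs_nonneg _
    nlinarith
  linarith

end PhiFacts

end LCH
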