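import Pool.Agent.Helper93.LCH.Basic

/-!
Elementary facts on the spaces and operators (MP_b555a2_al, ChainCriterion, helper93).
-/

namespace LCH

universe u v w

set_option linter.unusedSectionVars false

variable {K : Type u} {G : Type v} [Field K] [Group G]

section Leads

variable {s : Sit G}

theorem Sit.lt_asymm (s : Sit G) {x y : G} (h1 : s.lt x y) (h2 : s.lt y x) : False :=
  s.lt_irrefl x (s.lt_trans h1 h2)

theorem V_supp (v : s.V K) {x : G} (h : v.1 x ≠ 0) : x ∈ s.M := v.2.1 x h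

/-- every nonempty set inside the support has a least element -/
theorem V_min (v : s.V K) (A : Set G) (hA : A.Nonempty) (h : ∀ x ∈ A, v.1 x ≠ 0) :
    ∃ x ∈ A, ∀ y ∈ A, y = x ∨ s.lt x y := v.2.2 A hA h

theorem exists_lead (v : s.V K) (h : v ≠ 0) : ∃ x, x ∈ s.M ∧ Lead s v.1 x := by
  have h1 : ∃ x, v.1 x ≠ 0 := by
    by_contra hcon
    push Not at hcon
    apply h
    ext x
    exact hcon x
  obtain ⟨x, hx, hx'⟩ := V_min v {x | v.1 x ≠ 0} h1 (fun x hx => hx)
  exact ⟨x, V_supp v hx, hx, fun y hy => hx' y hy⟩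

theorem Lead.unique {v : G → K} {x y : G} (h1 : Lead s v x) (h2 : Lead s v y) : x = y := by
  rcases h1.2 y h2.1 with h | h
  · exact h.symm
  rcases h2.2 x h1.1 with h' | h'
  · exact h'
  · exact (s.lt_asymm h h').elim

theorem Lead.ne_zero {v : s.V K} {x : G} (h : Lead s v.1 x) : v ≠ 0 := by
  rintro rfl
  exact h.1 rfl

theorem Lead.mem {v : s.V K} {x : G} (h : Lead s v.1 x) : x ∈ s.M := V_supp v h.1

theorem ne_zero_of_ne {v : s.V K} {x : G} (h : v.1 x ≠ 0) : v ≠ 0 := by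
  rintro rfl
  exact h rfl

open Classical in
/-- the restriction of a function to a set -/
noncomputable def rsU (s : Sit G) (U : Set G) : Module.End K (s.V K) where
  toFun v := ⟨fun x => if x ∈ U then v.1 x else 0, by
    have key : ∀ x, (if x ∈ U then v.1 x else 0) ≠ 0 → v.1 x ≠ 0 := by
      intro x hx h
      apply hx
      rw [h, ite_self]
    exact ⟨fun x hx => V_supp v (key x hx), fun A hne hA =>
      V_min v A hne (fun x hx => key x (hA x hx))⟩⟩
  map_add' v w := by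
    ext x
    change (if x ∈ U then v.1 x + w.1 x else 0) = (if x ∈ U then v.1 x else 0) +
      (if x ∈ U then w.1 x else 0)
    by_cases h : x ∈ U
    · rw [if_pos h, if_pos h, if_pos h]
    · rw [if_neg h, if_neg h, if_neg h, add_zero]
  map_smul' c v := by
    ext x
    change (if x ∈ U then c • v.1 x else 0) = c • (if x ∈ U then v.1 x else 0)
    by_cases h : x ∈ U
    · rw [if_pos h, if_pos h]
    · rw [if_neg h, if_neg h, smul_zero]

theorem rsU_pos {U : Set G} (v : s.V K) {x : G} (h : x ∈ U) : (rsU s U v).1 x = v.1 x :=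
  if_pos h

theorem rsU_neg {U : Set G} (v : s.V K) {x : G} (h : x ∉ U) : (rsU s U v).1 x = 0 :=
  if_neg h

open Classical in
/-- the function `δ_x` -/
noncomputable def dl (K : Type u) [Field K] (s : Sit G) (x : G) (hx : x ∈ s.M) : s.V K :=
  ⟨fun y => if y = x then 1 else 0, by
    have key : ∀ y, (if y = x then (1 : K) else 0) ≠ 0 → y = x := by
      intro y hy
      by_contra h
      rw [if_neg h] at hy
      exact hy rfl
    refine ⟨fun y hy => by rw [key y hy]; exact hx, ?_⟩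
    rintro A ⟨a, ha⟩ hA
    refine ⟨a, ha, fun y hy => Or.inl ?_⟩
    rw [key y (hA y hy), key a (hA a ha)]⟩

theorem dl_self {x : G} (hx : x ∈ s.M) : (dl K s x hx).1 x = 1 := if_pos rfl

theorem dl_ne {x y : G} (hx : x ∈ s.M) (h : y ≠ x) : (dl K s x hx).1 y = 0 := if_neg h

theorem dl_lead {x : G} (hx : x ∈ s.M) : Lead s (dl K s x hx).1 x := by
  refine ⟨by rw [dl_self]; exact one_ne_zero, ?_⟩
  intro y hy
  left
  by_contra h
  exact hy (dl_ne hx h)

theorem dl_ne_zero {x : G} (hx : x ∈ s.M) : dl K s x hx ≠ 0 := (dl_lead hx).ne_zero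

instance V_nontrivial (s : Sit G) : Nontrivial (s.V K) :=
  ⟨⟨dl K s 1 s.M.one_mem, 0, dl_ne_zero _⟩⟩

end Leads

section Trans

variable {s : Sit G}

theorem tr_apply {g : G} (hg : g ∈ s.M) (v : s.V K) (x : G) :
    (s.tr K g v).1 x = v.1 (g⁻¹ * x) := by
  unfold Sit.tr
  rw [dif_pos hg]
  rfl

theorem tr_neg {g : G} (hg : g ∉ s.M) : s.tr K g = 0 := by
  unfold Sit.tr
  rw [dif_neg hg]

theorem tr_one : s.tr K 1 = 1 := by
  ext v x
  rw [tr_apply s.M.one_mem, inv_one, one_mul]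
  rfl

theorem tr_mul {g h : G} (hg : g ∈ s.M) (hh : h ∈ s.M) :
    s.tr K g * s.tr K h = s.tr K (g * h) := by
  ext v x
  change (s.tr K g (s.tr K h v)).1 x = _
  rw [tr_apply hg, tr_apply hh, tr_apply (s.M.mul_mem hg hh), mul_inv_rev, mul_assoc]

theorem tr_mul_inv {g : G} (hg : g ∈ s.M) : s.tr K g * s.tr K g⁻¹ = 1 := by
  rw [tr_mul hg (s.M.inv_mem hg), mul_inv_cancel, tr_one]

theorem tr_inv_mul {g : G} (hg : g ∈ s.M) : s.tr K g⁻¹ * s.tr K g = 1 := by
  rw [tr_mul (s.M.inv_mem hg) hg, inv_mul_cancel, tr_one]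

theorem tr_isUnit {g : G} (hg : g ∈ s.M) : IsUnit (s.tr K g) :=
  ⟨⟨s.tr K g, s.tr K g⁻¹, tr_mul_inv hg, tr_inv_mul hg⟩, rfl⟩

theorem tr_inverse {g : G} (hg : g ∈ s.M) : Ring.inverse (s.tr K g) = s.tr K g⁻¹ :=
  Ring.inverse_unit ⟨s.tr K g, s.tr K g⁻¹, tr_mul_inv hg, tr_inv_mul hg⟩

/-- inverse and multiplication by a unit on the right -/
theorem inverse_mul_unit {A : Type*} [Ring A] (a u u' : A) (h1 : u * u' = 1) (h2 : u' * u = 1) :
    Ring.inverse (a * u) = u' * Ring.inverse a := by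
  by_cases ha : IsUnit a
  · obtain ⟨b, rfl⟩ := ha
    have h3 : (b : A) * u = ((b * ⟨u, u', h1, h2⟩ : Aˣ) : A) := rfl
    rw [h3, Ring.inverse_unit, Ring.inverse_unit, mul_inv_rev]
    rfl
  · have h3 : ¬ IsUnit (a * u) := by
      intro h
      apply ha
      have h4 : a = (a * u) * u' := by rw [mul_assoc, h1, mul_one]
      rw [h4]
      exact h.mul ⟨⟨u', u, h2, h1⟩, rfl⟩
    rw [Ring.inverse_non_unit _ ha, Ring.inverse_non_unit _ h3, mul_zero]

theorem inverse_unit_mul {A : Type*} [Ring A] (a u u' : A) (h1 : u * u' = 1) (h2 : u' * u = 1) :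
    Ring.inverse (u * a) = Ring.inverse a * u' := by
  by_cases ha : IsUnit a
  · obtain ⟨b, rfl⟩ := ha
    have h3 : u * (b : A) = (((⟨u, u', h1, h2⟩ : Aˣ) * b : Aˣ) : A) := rfl
    rw [h3, Ring.inverse_unit, Ring.inverse_unit, mul_inv_rev]
    rfl
  · have h3 : ¬ IsUnit (u * a) := by
      intro h
      apply ha
      have h4 : a = u' * (u * a) := by rw [← mul_assoc, h2, one_mul]
      rw [h4]
      exact IsUnit.mul ⟨⟨u', u, h2, h1⟩, rfl⟩ h
    rw [Ring.inverse_non_unit _ ha, Ring.inverse_non_unit _ h3, zero_mul]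

theorem ev_conj {e : Ex K G} {t : G} (ht : t ∈ s.M) (h : ∀ g ∈ e.supp, g ∈ s.M) :
    (e.conj t).ev s = s.tr K t * e.ev s * s.tr K t⁻¹ := by
  induction e with
  | mono c g =>
    have hg : g ∈ s.M := h g rfl
    change c • s.tr K (t * g * t⁻¹) = s.tr K t * (c • s.tr K g) * s.tr K t⁻¹
    rw [mul_smul_comm, smul_mul_assoc, tr_mul ht hg, tr_mul (s.M.mul_mem ht hg) (s.M.inv_mem ht)]
  | add a b iha ihb =>
    change (a.conj t).ev s + (b.conj t).ev s = s.tr K t * (a.ev s + b.ev s) * s.tr K t⁻¹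
    rw [iha (fun g hg => h g (Or.inl hg)), ihb (fun g hg => h g (Or.inr hg)), mul_add, add_mul]
  | mul a b iha ihb =>
    change (a.conj t).ev s * (b.conj t).ev s = s.tr K t * (a.ev s * b.ev s) * s.tr K t⁻¹
    rw [iha (fun g hg => h g (Or.inl hg)), ihb (fun g hg => h g (Or.inr hg))]
    have h1 := tr_inv_mul (K := K) ht
    calc s.tr K t * a.ev s * s.tr K t⁻¹ * (s.tr K t * b.ev s * s.tr K t⁻¹)
        = s.tr K t * a.ev s * (s.tr K t⁻¹ * s.tr K t) * b.ev s * s.tr K t⁻¹ := by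
          simp only [mul_assoc]
      _ = s.tr K t * (a.ev s * b.ev s) * s.tr K t⁻¹ := by
          rw [h1, mul_one]
          simp only [mul_assoc]
  | inv a iha =>
    change Ring.inverse ((a.conj t).ev s) = s.tr K t * Ring.inverse (a.ev s) * s.tr K t⁻¹
    rw [iha h, inverse_mul_unit _ _ (s.tr K t) (tr_inv_mul ht) (tr_mul_inv ht),
      inverse_unit_mul _ _ (s.tr K t⁻¹) (tr_mul_inv ht) (tr_inv_mul ht), mul_assoc]

theorem ev_nrm {e : Ex K G} (h : ∀ g ∈ e.supp, g ∈ s.M) :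
    e.ev s = e.nrm.ev s * s.tr K e.tt := by
  induction e with
  | mono c g =>
    change c • s.tr K g = (c • s.tr K 1) * s.tr K g
    rw [tr_one, smul_mul_assoc, one_mul]
  | add a b iha ihb =>
    have ha : ∀ g ∈ a.supp, g ∈ s.M := fun g hg => h g (Or.inl hg)
    have hb : ∀ g ∈ b.supp, g ∈ s.M := fun g hg => h g (Or.inr hg)
    change a.ev s + b.ev s =
      (a.nrm.ev s + b.nrm.ev s * ((1 : K) • s.tr K (b.tt * (a.tt)⁻¹))) * s.tr K a.tt
    rw [one_smul, add_mul, mul_assoc, tr_mul (s.M.mul_mem (tt_mem hb) (s.M.inv_mem (tt_mem ha)))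
      (tt_mem ha), inv_mul_cancel_right, ← iha ha, ← ihb hb]
  | mul a b iha ihb =>
    have ha : ∀ g ∈ a.supp, g ∈ s.M := fun g hg => h g (Or.inl hg)
    have hb : ∀ g ∈ b.supp, g ∈ s.M := fun g hg => h g (Or.inr hg)
    change a.ev s * b.ev s = (a.nrm.ev s * (b.nrm.conj a.tt).ev s) * s.tr K (a.tt * b.tt)
    rw [ev_conj (tt_mem ha) (supp_nrm_mem hb), ← tr_mul (tt_mem ha) (tt_mem hb)]
    have h1 := tr_inv_mul (K := K) (tt_mem ha)
    calc a.ev s * b.ev s = a.nrm.ev s * s.tr K a.tt * (b.nrm.ev s * s.tr K b.tt) := by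
          rw [← iha ha, ← ihb hb]
      _ = a.nrm.ev s * s.tr K a.tt * b.nrm.ev s * 1 * s.tr K b.tt := by
          rw [mul_one]; simp only [mul_assoc]
      _ = _ := by
          rw [← h1]; simp only [mul_assoc]
  | inv a iha =>
    have ht : a.tt ∈ s.M := tt_mem (M := s.M) (e := a) h
    have ht' : (a.tt)⁻¹ ∈ s.M := s.M.inv_mem ht
    change Ring.inverse (a.ev s) = Ring.inverse ((a.nrm.conj (a.tt)⁻¹).ev s) * s.tr K (a.tt)⁻¹
    rw [ev_conj ht' (supp_nrm_mem (M := s.M) (e := a) h), iha h, inv_inv,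
      inverse_mul_unit _ _ (s.tr K (a.tt)⁻¹) (tr_mul_inv ht) (tr_inv_mul ht),
      inverse_mul_unit _ _ (s.tr K (a.tt)⁻¹) (tr_mul_inv ht) (tr_inv_mul ht),
      inverse_unit_mul _ _ (s.tr K a.tt) (tr_inv_mul ht) (tr_mul_inv ht)]
    have h1 := tr_mul_inv (K := K) ht
    calc s.tr K (a.tt)⁻¹ * Ring.inverse (a.nrm.ev s)
        = s.tr K (a.tt)⁻¹ * Ring.inverse (a.nrm.ev s) * 1 := by rw [mul_one]
      _ = _ := by rw [← h1]; simp only [mul_assoc]

end Trans

section Compat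

variable {s : Sit G}

theorem VCw_one : VCw s (1 : Module.End K (s.V K)) (fun x => x) :=
  ⟨fun _ hx => hx, fun y hy => ⟨y, hy, rfl⟩, fun _ _ _ _ h => h, fun _ _ h => h⟩

theorem VCw_tr {g : G} (hg : g ∈ s.M) : VCw s (s.tr K g) (fun x => g * x) := by
  refine ⟨fun x hx => s.M.mul_mem hg hx, fun y hy => ⟨g⁻¹ * y, s.M.mul_mem (s.M.inv_mem hg) hy,
    by group⟩, fun x _ y _ h => (s.lt_mul g).2 h, ?_⟩
  intro v x h
  refine ⟨by rw [tr_apply hg, inv_mul_cancel_left]; exact h.1, ?_⟩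
  intro y hy
  rw [tr_apply hg] at hy
  rcases h.2 _ hy with h1 | h1
  · left
    change y = g * x
    rw [← h1, mul_inv_cancel_left]
  · right
    have := (s.lt_mul g).2 h1
    rwa [mul_inv_cancel_left] at this

theorem VCw.comp {S T : Module.End K (s.V K)} {φ ψ : G → G} (h1 : VCw s S φ)
    (h2 : VCw s T ψ) : VCw s (S * T) (fun x => φ (ψ x)) := by
  refine ⟨fun x hx => h1.1 _ (h2.1 x hx), ?_, fun x hx y hy h => h1.2.2.1 _ (h2.1 x hx) _
    (h2.1 y hy) (h2.2.2.1 x hx y hy h), fun v x h => h1.2.2.2 _ _ (h2.2.2.2 v x h)⟩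
  intro y hy
  obtain ⟨z, hz, rfl⟩ := h1.2.1 y hy
  obtain ⟨x, hx, rfl⟩ := h2.2.1 z hz
  exact ⟨x, hx, rfl⟩

theorem VCw.smul {T : Module.End K (s.V K)} {φ : G → G} (h : VCw s T φ) {c : K} (hc : c ≠ 0) :
    VCw s (c • T) φ := by
  refine ⟨h.1, h.2.1, h.2.2.1, ?_⟩
  intro v x hx
  have h1 := h.2.2.2 v x hx
  refine ⟨?_, ?_⟩
  · change c • (T v).1 (φ x) ≠ 0
    exact smul_ne_zero hc h1.1
  · intro y hy
    have hy' : c • (T v).1 y ≠ 0 := hy
    exact h1.2 y (right_ne_zero_of_smul hy')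

theorem VC_one : VC s (1 : Module.End K (s.V K)) := ⟨_, VCw_one⟩

theorem VC_tr {g : G} (hg : g ∈ s.M) : VC s (s.tr K g) := ⟨_, VCw_tr hg⟩

theorem VC.mul {S T : Module.End K (s.V K)} (h1 : VC s S) (h2 : VC s T) : VC s (S * T) := by
  obtain ⟨φ, h1⟩ := h1
  obtain ⟨ψ, h2⟩ := h2
  exact ⟨_, h1.comp h2⟩

theorem VC.smul {T : Module.End K (s.V K)} (h : VC s T) {c : K} (hc : c ≠ 0) :
    VC s (c • T) := by
  obtain ⟨φ, h⟩ := h
  exact ⟨_, h.smul hc⟩

theorem VC_mono {c : K} {g : G} (hc : c ≠ 0) (hg : g ∈ s.M) : VC s ((Ex.mono c g).ev s) :=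
  (VC_tr hg).smul hc

theorem VC.ne_zero {T : Module.End K (s.V K)} (h : VC s T) : T ≠ 0 := by
  rintro rfl
  obtain ⟨φ, h⟩ := h
  exact (h.2.2.2 _ _ (dl_lead (K := K) s.M.one_mem)).1 rfl

/-- `T v = 0` only for `v = 0` -/
theorem VC.inj {T : Module.End K (s.V K)} (h : VC s T) {v : s.V K} (hv : T v = 0) : v = 0 := by
  by_contra hne
  obtain ⟨φ, h⟩ := h
  obtain ⟨x, _, hx⟩ := exists_lead v hne
  have := h.2.2.2 v x hx
  rw [hv] at this
  exact this.1 rfl

theorem VCw.injOn {T : Module.End K (s.V K)} {φ : G → G} (h : VCw s T φ) {x y : G}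
    (hx : x ∈ s.M) (hy : y ∈ s.M) (he : φ x = φ y) : x = y := by
  rcases s.lt_tot hx hy with h1 | h1 | h1
  · exact h1
  · exfalso
    have := h.2.2.1 x hx y hy h1
    rw [he] at this
    exact s.lt_irrefl _ this
  · exfalso
    have := h.2.2.1 y hy x hx h1
    rw [he] at this
    exact s.lt_irrefl _ this

theorem VCw.lt_iff {T : Module.End K (s.V K)} {φ : G → G} (h : VCw s T φ) {x y : G}
    (hx : x ∈ s.M) (hy : y ∈ s.M) : s.lt (φ x) (φ y) ↔ s.lt x y := by
  constructor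
  · intro h1
    rcases s.lt_tot hx hy with h2 | h2 | h2
    · rw [h2] at h1
      exact (s.lt_irrefl _ h1).elim
    · exact h2
    · exact (s.lt_asymm h1 (h.2.2.1 y hy x hx h2)).elim
  · exact h.2.2.1 x hx y hy

/-- the inverse of a compatible unit is compatible -/
theorem VC.inverse {T : Module.End K (s.V K)} (h : VC s T) (hu : IsUnit T) :
    VC s (Ring.inverse T) := by
  classical
  obtain ⟨φ, h⟩ := h
  choose! ρ hρ1 hρ2 using h.2.1
  refine ⟨ρ, hρ1, ?_, ?_, ?_⟩
  · intro y hy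
    refine ⟨φ y, h.1 y hy, ?_⟩
    exact h.injOn (hρ1 _ (h.1 y hy)) hy (hρ2 _ (h.1 y hy))
  · intro x hx y hy hxy
    have h1 := (h.lt_iff (hρ1 x hx) (hρ1 y hy)).1
    rw [hρ2 x hx, hρ2 y hy] at h1
    exact h1 hxy
  · intro v x hx
    have hvx : v ≠ 0 := hx.ne_zero
    have hT : T (Ring.inverse T v) = v := by
      have h1 := Ring.mul_inverse_cancel T hu
      have h2 := congrArg (fun S : Module.End K (s.V K) => S v) h1
      exact h2
    have hne : Ring.inverse T v ≠ 0 := by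
      intro h0
      rw [h0, map_zero] at hT
      exact hvx hT.symm
    obtain ⟨z, hz, hz'⟩ := exists_lead _ hne
    have h3 := h.2.2.2 _ _ hz'
    rw [hT] at h3
    have h4 : φ z = x := h3.unique hx
    have h5 : ρ x = z := by
      have hxM : x ∈ s.M := hx.mem
      exact h.injOn (hρ1 _ hxM) hz (by rw [hρ2 _ hxM, h4])
    rw [h5]
    exact hz'

end Compat

section Filt

variable {s : Sit G}

theorem Fil.smul {χ : G → ℝ} {r : ℝ} {T : Module.End K (s.V K)} (h : Fil s χ r T) (c : K) :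
    Fil s χ r (c • T) := by
  intro a v hv x hx
  apply h a v hv x
  intro h0
  apply hx
  change c • (T v).1 x = 0
  rw [h0, smul_zero]

theorem Fil.sub {χ : G → ℝ} {r : ℝ} {S T : Module.End K (s.V K)}
    (h1 : Fil s χ r S) (h2 : Fil s χ r T) : Fil s χ r (S - T) := by
  have h3 : S - T = S + -T := sub_eq_add_neg S T
  rw [h3]
  exact h1.add h2.neg

theorem Fil.sum {ι : Type*} {χ : G → ℝ} {r : ℝ} (F : Finset ι) (T : ι → Module.End K (s.V K))
    (h : ∀ i ∈ F, Fil s χ r (T i)) : Fil s χ r (∑ i ∈ F, T i) := by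
  classical
  induction F using Finset.induction_on with
  | empty => rw [Finset.sum_empty]; exact Fil.zero
  | insert a t ha ih =>
    rw [Finset.sum_insert ha]
    exact (h a (Finset.mem_insert_self a t)).add
      (ih (fun i hi => h i (Finset.mem_insert_of_mem hi)))

theorem Fil_tr {f : G → ℝ} (hf : IsChar s.M f) {g : G} (hg : g ∈ s.M) :
    Fil s f (f g) (s.tr K g) := by
  intro a v hv x hx
  rw [tr_apply hg] at hx
  have h1 := hv _ hx
  have h2 : g⁻¹ * x ∈ s.M := V_supp v hx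
  have h3 := hf g hg _ h2
  rw [mul_inv_cancel_left] at h3
  linarith

/-- values of the character on a support are at least the value of the lead -/
theorem lead_le {f : G → ℝ} (hf : IsChar s.M f) (hp : ∀ g ∈ s.P, 0 ≤ f g) {v : s.V K} {x : G}
    (hx : Lead s v.1 x) {y : G} (hy : v.1 y ≠ 0) : f x ≤ f y := by
  rcases hx.2 y hy with h | h
  · rw [h]
  · have h1 : 0 ≤ f (x⁻¹ * y) := hp _ h
    have hxM : x ∈ s.M := hx.mem
    have hyM : y ∈ s.M := V_supp v hy
    rw [hf _ (s.M.inv_mem hxM) _ hyM, ischar_inv hf hxM] at h1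
    linarith

/-- larger value of the character implies larger -/
theorem lt_of_char_lt {f : G → ℝ} (hf : IsChar s.M f) (hp : ∀ g ∈ s.P, 0 ≤ f g) {x y : G}
    (hx : x ∈ s.M) (hy : y ∈ s.M) (h : f x < f y) : s.lt x y := by
  rcases s.lt_tot hx hy with h1 | h1 | h1
  · rw [h1] at h
    exact (lt_irrefl _ h).elim
  · exact h1
  · exfalso
    have h2 : 0 ≤ f (y⁻¹ * x) := hp _ h1
    rw [hf _ (s.M.inv_mem hy) _ hx, ischar_inv hf hy] at h2
    linarith

/-- an operator of arbitrarily large degree vanishes -/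
theorem fil_all {f : G → ℝ} (hf : IsChar s.M f) (hp : ∀ g ∈ s.P, 0 ≤ f g)
    {T : Module.End K (s.V K)} (h : ∀ B : ℝ, Fil s f B T) : T = 0 := by
  ext v y
  by_contra hne
  have hne' : (T v).1 y ≠ 0 := hne
  have hv : v ≠ 0 := by
    rintro rfl
    rw [map_zero] at hne'
    exact hne' rfl
  obtain ⟨x, hx, hx'⟩ := exists_lead v hv
  have h1 := h (f y - f x + 1) (f x) v (fun z hz => lead_le hf hp hx' hz) y hne'
  linarith

/-- evaluation commutes with restriction to sets that are invariant under `H` -/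
theorem ev_rsU {H : Subgroup G} {U : Set G} (hU : ∀ h ∈ H, ∀ x ∈ U, h * x ∈ U) {e : Ex K G}
    (h : ∀ g ∈ e.supp, g ∈ H) : e.ev s * rsU s U = rsU s U * e.ev s := by
  induction e with
  | mono c g =>
    have hg : g ∈ H := h g rfl
    change (c • s.tr K g) * rsU s U = rsU s U * (c • s.tr K g)
    rw [smul_mul_assoc, mul_smul_comm]
    congr 1
    by_cases hM : g ∈ s.M
    · ext v x
      change (s.tr K g (rsU s U v)).1 x = (rsU s U (s.tr K g v)).1 x
      rw [tr_apply hM]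
      by_cases hx : x ∈ U
      · rw [rsU_pos _ hx, rsU_pos _ (hU _ (H.inv_mem hg) _ hx), tr_apply hM]
      · have hx' : g⁻¹ * x ∉ U := by
          intro h1
          apply hx
          have := hU _ hg _ h1
          rwa [mul_inv_cancel_left] at this
        rw [rsU_neg _ hx, rsU_neg _ hx']
    · rw [tr_neg hM, zero_mul, mul_zero]
  | add a b iha ihb =>
    change (a.ev s + b.ev s) * _ = _ * (a.ev s + b.ev s)
    rw [add_mul, mul_add, iha (fun g hg => h g (Or.inl hg)), ihb (fun g hg => h g (Or.inr hg))]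
  | mul a b iha ihb =>
    change (a.ev s * b.ev s) * _ = _ * (a.ev s * b.ev s)
    rw [mul_assoc, ihb (fun g hg => h g (Or.inr hg)), ← mul_assoc,
      iha (fun g hg => h g (Or.inl hg)), mul_assoc]
  | inv a iha =>
    have h1 := iha h
    change Ring.inverse (a.ev s) * _ = _ * Ring.inverse (a.ev s)
    by_cases hu : IsUnit (a.ev s)
    · have e1 := Ring.mul_inverse_cancel _ hu
      have e2 := Ring.inverse_mul_cancel _ hu
      calc Ring.inverse (a.ev s) * rsU s U
          = Ring.inverse (a.ev s) * rsU s U * (a.ev s * Ring.inverse (a.ev s)) := by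
            rw [e1, mul_one]
        _ = Ring.inverse (a.ev s) * (rsU s U * a.ev s) * Ring.inverse (a.ev s) := by
            simp only [mul_assoc]
        _ = Ring.inverse (a.ev s) * (a.ev s * rsU s U) * Ring.inverse (a.ev s) := by rw [h1]
        _ = (Ring.inverse (a.ev s) * a.ev s) * rsU s U * Ring.inverse (a.ev s) := by
            simp only [mul_assoc]
        _ = _ := by rw [e2, one_mul]
    · rw [Ring.inverse_non_unit _ hu, zero_mul, mul_zero]

/-- the support of `ev e v` lies in `H · supp v` -/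
theorem ev_supp {H : Subgroup G} {e : Ex K G} (h : ∀ g ∈ e.supp, g ∈ H) {v : s.V K} {x : G}
    (hx : (e.ev s v).1 x ≠ 0) : ∃ g ∈ H, v.1 (g * x) ≠ 0 := by
  by_contra hcon
  push Not at hcon
  apply hx
  have h1 := ev_rsU (s := s) (U := {y | ∃ g ∈ H, y = g * x}) (by
    rintro g hg _ ⟨g', hg', rfl⟩
    exact ⟨g * g', H.mul_mem hg hg', by rw [mul_assoc]⟩) h
  have h2 : rsU s {y | ∃ g ∈ H, y = g * x} v = 0 := by
    ext y
    by_cases hy : y ∈ {y | ∃ g ∈ H, y = g * x}
    · rw [rsU_pos _ hy]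
      obtain ⟨g, hg, rfl⟩ := hy
      exact hcon g hg
    · rw [rsU_neg _ hy]; rfl
  have h3 := congrArg (fun S : Module.End K (s.V K) => (S v).1 x) h1
  have h4 : (e.ev s (rsU s {y | ∃ g ∈ H, y = g * x} v)).1 x =
      (rsU s {y | ∃ g ∈ H, y = g * x} (e.ev s v)).1 x := h3
  rw [h2, map_zero, rsU_pos _ (by exact ⟨1, H.one_mem, (one_mul x).symm⟩)] at h4
  exact h4.symm

end Filt

section Cons

/-- consistency of the normalised expression implies consistency -/
theorem cons_of_nrm {e : Ex K G} (h : e.nrm.Cons) : e.Cons := by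
  rcases h with h | h
  · left
    intro s hs
    rw [ev_nrm hs, h s (supp_nrm_mem hs), zero_mul]
  · right
    intro s hs
    rw [ev_nrm hs]
    exact (h s (supp_nrm_mem hs)).mul (VC_tr (tt_mem hs))

/-- the normalised expression in terms of the expression -/
theorem ev_nrm' {s : Sit G} {e : Ex K G} (h : ∀ g ∈ e.supp, g ∈ s.M) :
    e.nrm.ev s = e.ev s * s.tr K (e.tt)⁻¹ := by
  rw [ev_nrm h, mul_assoc, tr_mul_inv (tt_mem h), mul_one]

/-- the inverse in terms of the normalised expression -/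
theorem ev_inv_nrm {s : Sit G} {e : Ex K G} (h : ∀ g ∈ e.supp, g ∈ s.M) :
    (Ex.inv e).ev s = s.tr K (e.tt)⁻¹ * (Ex.inv e.nrm).ev s := by
  change Ring.inverse (e.ev s) = _ * Ring.inverse (e.nrm.ev s)
  rw [ev_nrm h, inverse_mul_unit _ _ (s.tr K (e.tt)⁻¹) (tr_mul_inv (tt_mem h))
    (tr_inv_mul (tt_mem h))]

end Cons

end LCH
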