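import Pool.Agent.Helper93.LCH.Basic3
import Pool.Agent.Helper65.LCH.FRC

/-!
Row FRE (MP_b555a2_al, ChainCriterion, helper93).
-/

namespace LCH93

open LCH

universe u v w

theorem pi_inverse {ι : Type*} {A : ι → Type*} [∀ i, Ring (A i)] (x : (i : ι) → A i)
    (hx : x = 0 ∨ IsUnit x) : Ring.inverse x = fun i => Ring.inverse (x i) := by
  rcases hx with rfl | hx
  · rw [Ring.inverse_zero]
    funext i
    change (0 : A i) = Ring.inverse (0 : A i)
    rw [Ring.inverse_zero]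
  · obtain ⟨U, rfl⟩ := hx
    rw [Ring.inverse_unit]
    funext i
    have h1 : (U : (i : ι) → A i) i * ((U⁻¹ : ((i : ι) → A i)ˣ) : (i : ι) → A i) i = 1 :=
      congrFun (U.mul_inv) i
    have h2 : ((U⁻¹ : ((i : ι) → A i)ˣ) : (i : ι) → A i) i * (U : (i : ι) → A i) i = 1 :=
      congrFun (U.inv_mul) i
    exact (Ring.inverse_unit ⟨(U : (i : ι) → A i) i, _, h1, h2⟩).symm

theorem st_FRE (hFRC : ST_FRC.{max u v}) (hSPH : ST_SPH.{u, v}) : ST_FRE.{u, v} := by
  intro K _ G _ L S hVC hO hmono e he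
  by_cases hne : Nonempty {s : Sit G // L ≤ s.M}
  swap
  · left
    intro s hs
    exact absurd ⟨⟨s, hs⟩⟩ hne
  have hnt : ∀ s : {s : Sit G // L ≤ s.M}, Nontrivial (Module.End K (s.1.V K)) := fun s =>
    ⟨⟨1, 0, (VC_one (K := K) (s := s.1)).ne_zero⟩⟩
  have : Nontrivial (AlgJ K L) := by
    obtain ⟨s⟩ := hne
    refine ⟨⟨1, 0, ?_⟩⟩
    intro h
    exact (VC_one (K := K) (s := s.1)).ne_zero (congrFun h s)
  have hu : ∀ x ∈ S, x ≠ 0 → IsUnit x := by
    intro x hx hx0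
    rw [Pi.isUnit_iff]
    intro s
    exact hSPH K G s.1 _ (hVC x hx hx0 s)
  obtain ⟨Q, hQ, hSQ, hinv⟩ := hFRC (AlgJ K L) S hu hO
  have hQu : ∀ x ∈ Q, x = 0 ∨ IsUnit x := by
    intro x hx
    obtain ⟨a, ha, b, hb, hb0, hbx⟩ := (hQ x).1 hx
    obtain ⟨U, hU⟩ := hu b hb hb0
    have hx2 : x = ((U⁻¹ : (AlgJ K L)ˣ) : AlgJ K L) * a := by
      rw [← hbx, ← hU, ← mul_assoc, Units.inv_mul, one_mul]
    by_cases ha0 : a = 0
    · left
      rw [hx2, ha0, mul_zero]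
    · right
      rw [hx2]
      exact (Units.isUnit _).mul (hu a ha ha0)
  have hev : ∀ e : Ex K G, (∀ g ∈ e.supp, g ∈ L) → e.evJ L ∈ Q := by
    intro e
    induction e with
    | mono c g => exact fun h => hSQ (hmono c g (h g rfl))
    | add a b iha ihb =>
      exact fun h => Q.add_mem (iha (fun g hg => h g (Or.inl hg)))
        (ihb (fun g hg => h g (Or.inr hg)))
    | mul a b iha ihb =>
      exact fun h => Q.mul_mem (iha (fun g hg => h g (Or.inl hg)))
        (ihb (fun g hg => h g (Or.inr hg)))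
    | inv a iha =>
      intro h
      have h1 := iha h
      have h2 : (Ex.inv a).evJ L = Ring.inverse (a.evJ L) := by
        rw [pi_inverse (a.evJ L) (hQu _ h1)]
        rfl
      rw [h2]
      exact hinv _ h1
  obtain ⟨a, ha, b, hb, hb0, hbx⟩ := (hQ _).1 (hev e he)
  by_cases ha0 : a = 0
  · left
    intro s hs
    have h1 := hVC b hb hb0 ⟨s, hs⟩
    have h2 : b ⟨s, hs⟩ * e.ev s = 0 := by
      have := congrFun hbx ⟨s, hs⟩
      rw [ha0] at this
      exact this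
    have h3 := Ring.inverse_mul_cancel _ (hSPH K G s _ h1)
    calc e.ev s = (Ring.inverse (b ⟨s, hs⟩) * b ⟨s, hs⟩) * e.ev s := by rw [h3, one_mul]
      _ = 0 := by rw [mul_assoc, h2, mul_zero]
  · right
    intro s hs
    have h1 := hVC b hb hb0 ⟨s, hs⟩
    have h2 : b ⟨s, hs⟩ * e.ev s = a ⟨s, hs⟩ := congrFun hbx ⟨s, hs⟩
    have hu1 := hSPH K G s _ h1
    have h3 := Ring.inverse_mul_cancel _ hu1
    have h4 : e.ev s = Ring.inverse (b ⟨s, hs⟩) * a ⟨s, hs⟩ := by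
      rw [← h2, ← mul_assoc, h3, one_mul]
    rw [h4]
    exact (h1.inverse hu1).mul (hVC a ha ha0 ⟨s, hs⟩)

theorem st_FRC' : ST_FRC.{w} := fun A _ _ S h1 h2 => LCH65.frc_aux A S h1 h2

end LCH93
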