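import Pool.Agent.Helper93.LCH.Basic3

/-!
Rows UEH, HBD, UEL, MAI, FIN (MP_b555a2_al, ChainCriterion, helper93).
-/

namespace LCH93

open LCH

universe u v w

set_option linter.unusedSectionVars false

theorem st_HBD : ST_HBD.{u, v, w} := by
  intro K _ G _ T _ X κ hI e L χ ψ hLX hχ hψ hsupp hm
  induction e with
  | mono c g =>
    intro r hr
    have hr' : χ g = r := hr
    have hg : g ∈ L := hsupp g rfl
    refine ⟨|ψ g|, fun i => ?_⟩
    have h1 : g ∈ i.s.M := i.at'.1 hg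
    have h2 : i.f g = χ g + i.t * ψ g := i.at'.2.2.2 g hg
    have h3 := (Fil_tr (K := K) i.at'.2.1 h1).smul c
    refine h3.anti ?_
    rw [h2, hr']
    have h4 : -(|i.t| * |ψ g|) ≤ i.t * ψ g := by
      rw [← abs_mul]
      exact neg_abs_le _
    nlinarith
  | add a b iha ihb =>
    intro r hr
    obtain ⟨C1, h1⟩ := iha (fun g hg => hsupp g (Or.inl hg))
      (mle_trans (mle_of_lt (meas_add_left T a b)) hm) r hr.1
    obtain ⟨C2, h2⟩ := ihb (fun g hg => hsupp g (Or.inr hg))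
      (mle_trans (mle_of_lt (meas_add_right T a b)) hm) r hr.2
    refine ⟨max C1 C2, fun i => ?_⟩
    have h3 : 0 ≤ |i.t| := abs_nonneg _
    refine Fil.add ((h1 i).anti ?_) ((h2 i).anti ?_)
    · have := mul_le_mul_of_nonneg_right (le_max_left C1 C2) h3
      linarith
    · have := mul_le_mul_of_nonneg_right (le_max_right C1 C2) h3
      linarith
  | mul a b iha ihb =>
    intro r hr
    obtain ⟨p, q, hpq, ha, hb⟩ := hr
    obtain ⟨C1, h1⟩ := iha (fun g hg => hsupp g (Or.inl hg))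
      (mle_trans (meas_mul_left T a b) hm) p ha
    obtain ⟨C2, h2⟩ := ihb (fun g hg => hsupp g (Or.inr hg))
      (mle_trans (meas_mul_right T a b) hm) q hb
    refine ⟨C1 + C2, fun i => ?_⟩
    refine ((h1 i).mul (h2 i)).anti ?_
    rw [← hpq]
    nlinarith
  | inv a iha =>
    have hlt : MSys.lt (a.meas T) κ := lt_of_lt_of_mle (meas_inv T a) hm
    have hX : ∀ g ∈ a.supp, g ∈ X := fun g hg => hLX (hsupp g hg)
    exact (hI a hX hlt).2 L χ ψ hLX hχ hψ hsupp

theorem st_UEH : ST_UEH.{u, v, w} := by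
  intro K _ G _ T _ e L χ ψ hsupp hhom hHB
  obtain ⟨r, hr⟩ := hhom
  refine ⟨1, one_pos, {r}, fun _ => e, ?_, ?_, ?_, ?_, ?_⟩
  · intro r' hr'
    rw [hom_unique hr hr']
  · rintro q hq
    rw [Set.mem_singleton_iff] at hq
    rw [hq]
    exact ⟨hsupp, hr⟩
  · intro F hF
    have hF' : F ⊆ {r} := by
      intro q hq
      rw [Finset.mem_singleton]
      exact hF q hq
    have h1 := sum_mle_of_subset (fun _ : ℝ => e.meas T) hF'
    rw [Finset.sum_singleton] at h1
    exact h1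
  · intro hn
    exact absurd ⟨r, hr⟩ hn
  · obtain ⟨C, hC⟩ := hHB r hr
    refine ⟨?_, ?_, ?_⟩
    · intro B
      exact (Set.finite_singleton r).subset Set.inter_subset_left
    · intro q _
      refine ⟨r - |C|, ?_⟩
      intro i hi
      refine (hC i).anti ?_
      have h1 : C * |i.t| ≤ |C| * 1 := by
        have h2 : C * |i.t| ≤ |C| * |i.t| :=
          mul_le_mul_of_nonneg_right (le_abs_self C) (abs_nonneg _)
        have h3 : |C| * |i.t| ≤ |C| * 1 := mul_le_mul_of_nonneg_left (le_of_lt hi) (abs_nonneg _)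
        linarith
      linarith
    · intro B
      refine ⟨r + 1, ?_⟩
      intro B'' hB'' T' hT'
      have hT1 : T' = {r} := by
        ext q
        rw [hT' q, Finset.mem_singleton, Set.mem_singleton_iff]
        constructor
        · exact fun h => h.1
        · intro h
          exact ⟨h, by rw [h]; linarith⟩
      rw [hT1, Finset.sum_singleton, sub_self]
      exact ((Phi K L χ ψ 1).F B).zero_mem

theorem st_UEL (h1 : ST_HBD.{u, v, w}) (h2 : ST_UEH.{u, v, w}) (h3 : ST_UEA.{u, v, w})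
    (h4 : ST_UEM.{u, v, w}) (h5 : ST_UEI.{u, v, w}) : ST_UEL.{u, v, w} := by
  intro K _ G _ T _ hLI X κ hI e L χ ψ hLX hχ hψ hsupp hm
  have hHBD := h1 K G T X κ hI
  induction e with
  | mono c g =>
    exact h2 K G T (.mono c g) L χ ψ hsupp ⟨χ g, rfl⟩
      (hHBD _ L χ ψ hLX hχ hψ hsupp hm)
  | add a b iha ihb =>
    by_cases hh : ∃ r, (Ex.add a b).Hom χ r
    · exact h2 K G T (.add a b) L χ ψ hsupp hh (hHBD _ L χ ψ hLX hχ hψ hsupp hm)
    · exact h3 K G T a b L χ ψ hh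
        (iha (fun g hg => hsupp g (Or.inl hg)) (mle_trans (mle_of_lt (meas_add_left T a b)) hm))
        (ihb (fun g hg => hsupp g (Or.inr hg)) (mle_trans (mle_of_lt (meas_add_right T a b)) hm))
  | mul a b iha ihb =>
    by_cases hh : ∃ r, (Ex.mul a b).Hom χ r
    · exact h2 K G T (.mul a b) L χ ψ hsupp hh (hHBD _ L χ ψ hLX hχ hψ hsupp hm)
    · exact h4 K G T a b L χ ψ hh
        (iha (fun g hg => hsupp g (Or.inl hg)) (mle_trans (meas_mul_left T a b) hm))
        (ihb (fun g hg => hsupp g (Or.inr hg)) (mle_trans (meas_mul_right T a b) hm))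
  | inv a iha =>
    by_cases hh : ∃ r, (Ex.inv a).Hom χ r
    · exact h2 K G T (.inv a) L χ ψ hsupp hh (hHBD _ L χ ψ hLX hχ hψ hsupp hm)
    · have hh' : ¬ ∃ r, a.Hom χ r := by
        rintro ⟨r, hr⟩
        apply hh
        refine ⟨-r, ?_⟩
        change a.Hom χ (- -r)
        rw [neg_neg]
        exact hr
      exact h5 K G T hLI X κ hI a L χ ψ hLX hχ hψ hsupp hm hh'
        (iha hsupp (mle_trans (mle_of_lt (meas_inv T a)) hm))

theorem st_MAI (h1 : ST_MEA) (h2 : ST_CST.{u, v, 1}) (h3 : ST_HBV.{u, v, 1}) :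
    ST_MAI.{u, v} := by
  intro K _ G _ hLI X hC
  obtain ⟨T, ⟨inst⟩⟩ := h1
  have key : ∀ κ : T, ∀ e : Ex K G, (∀ g ∈ e.supp, g ∈ X) → e.meas T = κ → Pack X e := by
    intro κ
    induction κ using (MSys.wf (T := T)).induction with
    | h κ ih =>
      intro e he hm
      have hI : IH K T X κ := fun e' he' hm' => ih (e'.meas T) hm' e' he' rfl
      have hcons := h2 K G T hLI X hC κ hI e he hm
      exact ⟨hcons, fun L χ ψ hL hχ hψ hs => h3 K G T hLI X κ hI e hm hcons L χ ψ hL hχ hψ hs⟩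
  intro e he
  exact (key _ e he rfl).1

theorem st_FIN (h1 : ST_MAI.{u, v}) (h2 : ST_DIV.{u, v}) : ST_FIN.{u, v} := by
  intro K _ G _ hLI hch
  let R : Subgroup G → Subgroup G → Prop := fun C' C =>
    (C'.FG ∧ C' ≠ ⊥ ∧ Rk1 C' ∧ ¬ OreK K C') ∧ (C.FG ∧ C ≠ ⊥ ∧ Rk1 C ∧ ¬ OreK K C) ∧ C' ≤ Ker C
  have hwf : WellFounded R := by
    rw [wellFounded_iff_isEmpty_descending_chain]
    refine ⟨?_⟩
    rintro ⟨f, hf⟩
    apply hch
    refine ⟨f, fun n => ?_⟩
    obtain ⟨_, ⟨a1, a2, a3, a4⟩, a5⟩ := hf n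
    exact ⟨a1, a2, a3, a4, a5⟩
  have key : ∀ C : Subgroup G, (C.FG ∧ C ≠ ⊥ ∧ Rk1 C ∧ ¬ OreK K C) → Good K (Ker C) := by
    intro C
    induction C using hwf.induction with
    | h C ih =>
      intro hC
      apply h1 K G hLI (Ker C)
      intro C' hle hfg hne hrk hore
      exact ih C' ⟨⟨hfg, hne, hrk, hore⟩, hC, hle⟩ ⟨hfg, hne, hrk, hore⟩
  apply h2 K G hLI
  apply h1 K G hLI ⊤
  intro C _ hfg hne hrk hore
  exact key C ⟨hfg, hne, hrk, hore⟩

end LCH93
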