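import Pool.Agent.Helper18.LCH.CE
import Pool.Agent.Helper18.LCH.UEM
import Pool.Agent.Helper17.LCH.EXA
import Pool.Agent.Helper20.LCH.LFX
import Pool.Agent.Helper20.LCH.SKL
import Pool.Agent.Helper27.LCH.CST
import Pool.Agent.Helper46.LCH.DIV
import Pool.Agent.Helper61.LCH.MEA
import Pool.Agent.Helper61.LCH.MVC
import Pool.Agent.Helper61.LCH.SCA
import Pool.Agent.Helper66.LCH.HBV
import Pool.Agent.Helper79.LCH.UEA
import Pool.Agent.Helper8.LCH.RKB
import Pool.Agent.Helper8.LCH.SPH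
import Pool.Agent.Helper8.LCH.XINV
import Pool.Agent.Helper80.LCH.XADD
import Pool.Agent.Helper80.LCH.XMUL
import Pool.Agent.Helper80.LCH.XSH
import Pool.Agent.Helper82.LCH.RKA
import Pool.Agent.Helper82.LCH.UEI
import Pool.Agent.Helper93.LCH.Small
import Pool.Agent.Helper93.LCH.FRE
import Pool.Agent.Helper97.LCH.AMB
import Pool.Agent.Helper97.LCH.GLB
import Pool.Agent.Helper97.LCH.ONE

/-!
Assembly of the chain criterion (MP_b555a2_al, helper93).
-/

namespace LCH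

universe u v

theorem fin_all : ST_FIN.{u, v} := by
  have sph : ST_SPH.{u, v} := LCH8.st_SPH
  have one : ST_ONE.{u, v} := LCH97.st_ONE sph
  have ce : ST_CE.{v} := LCH18.st_CE
  have hbd : ST_HBD.{u, v, 1} := LCH93.st_HBD
  have ueh : ST_UEH.{u, v, 1} := LCH93.st_UEH
  have uea : ST_UEA.{u, v, 1} := LCH79.st_UEA LCH80.st_XADD
  have uem : ST_UEM.{u, v, 1} := LCH18.st_UEM LCH80.st_XMUL
  have uei : ST_UEI.{u, v, 1} :=
    LCH82.st_UEI ce hbd LCH8.st_XINV LCH80.st_XSH one sph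
  have uel : ST_UEL.{u, v, 1} := LCH93.st_UEL hbd ueh uea uem uei
  have lfx : ST_LFX.{u, v, 1} := LCH20.st_LFX hbd sph
  have lfc : ST_LFC.{u, v} := LCH97.st_LFC sph one
  have exa : ST_EXA.{u, v} := LCH17.st_EXA
  have hbv : ST_HBV.{u, v, 1} := LCH66.st_HBV uel lfx lfc ce exa
  have trc : ST_TRC.{u, v} := LCH97.st_TRC sph
  have amb : ST_AMB.{u, v} := LCH97.st_AMB trc
  have mvc : ST_MVC.{u, v} := LCH61.st_MVC
  have fre : ST_FRE.{u, v} := LCH93.st_FRE LCH93.st_FRC' sph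
  have rka : ST_RKA.{u, v} := LCH82.st_RKA fre mvc
  have rkb : ST_RKB.{u, v} := LCH8.st_RKB fre LCH20.st_SKL mvc
  have cst : ST_CST.{u, v, 1} :=
    LCH27.st_CST LCH97.st_GLB amb LCH61.st_SCA rka rkb uel lfx lfc ce
  have mai : ST_MAI.{u, v} := LCH93.st_MAI LCH61.st_MEA cst hbv
  have div : ST_DIV.{u, v} := LCH46.st_DIV ce sph
  exact LCH93.st_FIN mai div

end LCH
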