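import Pool.Agent.Helper93.LCH.Stmts

/-!
Elementary facts for the rows (MP_b555a2_al, ChainCriterion, helper93).
-/

namespace LCH

universe u v w

set_option linter.unusedSectionVars false

section Measures

variable {T : Type w} [MSys T]

theorem ms_irrefl (a : T) : ¬ MSys.lt a a := by
  intro h
  have hw : WellFounded (MSys.lt : T → T → Prop) := MSys.wf
  exact (hw.irrefl).irrefl a h

theorem mle_refl (a : T) : mle a a := Or.inl rfl

theorem mle_of_lt {a b : T} (h : MSys.lt a b) : mle a b := Or.inr h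

theorem lt_of_lt_of_mle {a b c : T} (h1 : MSys.lt a b) (h2 : mle b c) : MSys.lt a c := by
  rcases h2 with rfl | h2
  · exact h1
  · exact MSys.tr _ _ _ h1 h2

theorem lt_of_mle_of_lt {a b c : T} (h1 : mle a b) (h2 : MSys.lt b c) : MSys.lt a c := by
  rcases h1 with rfl | h1
  · exact h2
  · exact MSys.tr _ _ _ h1 h2

theorem mle_trans {a b c : T} (h1 : mle a b) (h2 : mle b c) : mle a c := by
  rcases h2 with rfl | h2
  · exact h1
  · exact Or.inr (lt_of_mle_of_lt h1 h2)

theorem zero_mle (a : T) : mle 0 a := by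
  by_cases h : a = 0
  · left; exact h.symm
  · right; exact MSys.pos a h

theorem lt_add_of_lt_of_mle {a b c d : T} (h1 : MSys.lt a b) (h2 : mle c d) :
    MSys.lt (a + c) (b + d) := by
  have h3 : MSys.lt (a + c) (b + c) := MSys.add_lt _ _ _ h1
  rcases h2 with rfl | h2
  · exact h3
  · have h4 : MSys.lt (c + b) (d + b) := MSys.add_lt _ _ _ h2
    rw [add_comm c b, add_comm d b] at h4
    exact MSys.tr _ _ _ h3 h4

theorem lt_add_of_mle_of_lt {a b c d : T} (h1 : mle a b) (h2 : MSys.lt c d) :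
    MSys.lt (a + c) (b + d) := by
  rw [add_comm a c, add_comm b d]
  exact lt_add_of_lt_of_mle h2 h1

theorem mle_add {a b c d : T} (h1 : mle a b) (h2 : mle c d) : mle (a + c) (b + d) := by
  rcases h1 with rfl | h1
  · rcases h2 with rfl | h2
    · exact mle_refl _
    · exact Or.inr (lt_add_of_mle_of_lt (mle_refl _) h2)
  · exact Or.inr (lt_add_of_lt_of_mle h1 h2)

theorem lt_add_self {a b : T} (hb : b ≠ 0) : MSys.lt a (a + b) := by
  have := lt_add_of_mle_of_lt (mle_refl a) (MSys.pos b hb)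
  rwa [add_zero] at this

theorem mle_add_right' (a b : T) : mle a (a + b) := by
  have := mle_add (mle_refl a) (zero_mle b)
  rwa [add_zero] at this

theorem ne_zero_of_lt {a b : T} (h : MSys.lt a b) : b ≠ 0 := by
  rintro rfl
  exact ms_irrefl _ (lt_of_mle_of_lt (zero_mle a) h)

theorem add_ne_zero' {a b : T} (h : a ≠ 0) : a + b ≠ 0 :=
  ne_zero_of_lt (lt_of_lt_of_mle (MSys.pos a h) (mle_add_right' a b))

theorem ml_ne_zero {a b : T} (ha : a ≠ 0) (hb : b ≠ 0) : MSys.ml a b ≠ 0 := by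
  have := MSys.ml_lt 0 a b (MSys.pos a ha) hb
  rw [MSys.zero_ml] at this
  exact ne_zero_of_lt this

theorem iv_ne_zero (a : T) : MSys.iv a ≠ 0 := ne_zero_of_lt (MSys.lt_iv a)

theorem ml_mle_left {a b : T} (h : mle a b) (c : T) : mle (MSys.ml a c) (MSys.ml b c) := by
  rcases h with rfl | h
  · exact mle_refl _
  · by_cases hc : c = 0
    · rw [hc, MSys.ml_zero, MSys.ml_zero]; exact mle_refl _
    · exact Or.inr (MSys.ml_lt _ _ _ h hc)

theorem ml_mle_right {a b : T} (h : mle a b) (c : T) : mle (MSys.ml c a) (MSys.ml c b) := by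
  rcases h with rfl | h
  · exact mle_refl _
  · by_cases hc : c = 0
    · rw [hc, MSys.zero_ml, MSys.zero_ml]; exact mle_refl _
    · exact Or.inr (MSys.ml_lt' _ _ _ h hc)

theorem mle_ml {a b c d : T} (h1 : mle a b) (h2 : mle c d) : mle (MSys.ml a c) (MSys.ml b d) :=
  mle_trans (ml_mle_left h1 c) (ml_mle_right h2 b)

theorem lt_ml_of_lt_of_mle {a b c d : T} (h1 : MSys.lt a b) (h2 : mle c d) (hc : c ≠ 0) :
    MSys.lt (MSys.ml a c) (MSys.ml b d) :=
  lt_of_lt_of_mle (MSys.ml_lt _ _ _ h1 hc) (ml_mle_right h2 b)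

theorem lt_ml_of_mle_of_lt {a b c d : T} (h1 : mle a b) (h2 : MSys.lt c d) (hb : b ≠ 0) :
    MSys.lt (MSys.ml a c) (MSys.ml b d) :=
  lt_of_mle_of_lt (ml_mle_left h1 c) (MSys.ml_lt' _ _ _ h2 hb)

theorem zero_lt_iv (c : T) : MSys.lt 0 (MSys.iv c) := MSys.pos _ (iv_ne_zero c)

theorem sum_lt_iv {ι : Type*} (F : Finset ι) (f : ι → T) (c : T)
    (h : ∀ i ∈ F, MSys.lt (f i) (MSys.iv c)) : MSys.lt (∑ i ∈ F, f i) (MSys.iv c) := by
  classical
  induction F using Finset.induction_on with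
  | empty => rw [Finset.sum_empty]; exact zero_lt_iv c
  | insert a s ha ih =>
    rw [Finset.sum_insert ha]
    exact MSys.iv_add _ _ _ (h a (Finset.mem_insert_self a s))
      (ih (fun i hi => h i (Finset.mem_insert_of_mem hi)))

theorem sum_mle_sum {ι : Type*} (F : Finset ι) (f g : ι → T)
    (h : ∀ i ∈ F, mle (f i) (g i)) : mle (∑ i ∈ F, f i) (∑ i ∈ F, g i) := by
  classical
  induction F using Finset.induction_on with
  | empty => exact mle_refl _
  | insert a s ha ih =>
    rw [Finset.sum_insert ha, Finset.sum_insert ha]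
    exact mle_add (h a (Finset.mem_insert_self a s))
      (ih (fun i hi => h i (Finset.mem_insert_of_mem hi)))

theorem sum_mle_of_subset {ι : Type*} {F F' : Finset ι} (f : ι → T) (h : F ⊆ F') :
    mle (∑ i ∈ F, f i) (∑ i ∈ F', f i) := by
  classical
  rw [← Finset.sum_sdiff h, add_comm]
  exact mle_add_right' _ _

theorem mle_sum_of_mem {ι : Type*} {F : Finset ι} (f : ι → T) {i : ι} (h : i ∈ F) :
    mle (f i) (∑ i ∈ F, f i) := by
  classical
  have := sum_mle_of_subset f (Finset.singleton_subset_iff.2 h)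
  rwa [Finset.sum_singleton] at this

/-- strict inequality if a nonzero summand is left out -/
theorem sum_lt_of_subset {ι : Type*} {F F' : Finset ι} (f : ι → T) (h : F ⊆ F') {i : ι}
    (hi : i ∈ F') (hi' : i ∉ F) (hf : f i ≠ 0) : MSys.lt (∑ i ∈ F, f i) (∑ i ∈ F', f i) := by
  classical
  rw [← Finset.sum_sdiff h, add_comm]
  apply lt_add_self
  have h1 : i ∈ F' \ F := Finset.mem_sdiff.2 ⟨hi, hi'⟩
  have h2 := mle_sum_of_mem f h1
  exact ne_zero_of_lt (lt_of_lt_of_mle (MSys.pos _ hf) h2)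

theorem ml_sum {ι : Type*} (F : Finset ι) (f : ι → T) (a : T) :
    MSys.ml a (∑ i ∈ F, f i) = ∑ i ∈ F, MSys.ml a (f i) := by
  classical
  induction F using Finset.induction_on with
  | empty => rw [Finset.sum_empty, Finset.sum_empty, MSys.ml_zero]
  | insert b s hb ih => rw [Finset.sum_insert hb, Finset.sum_insert hb, MSys.ml_add, ih]

theorem sum_ml {ι : Type*} (F : Finset ι) (f : ι → T) (a : T) :
    MSys.ml (∑ i ∈ F, f i) a = ∑ i ∈ F, MSys.ml (f i) a := by
  classical
  induction F using Finset.induction_on with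
  | empty => rw [Finset.sum_empty, Finset.sum_empty, MSys.zero_ml]
  | insert b s hb ih => rw [Finset.sum_insert hb, Finset.sum_insert hb, MSys.add_ml, ih]

theorem ml_sum_sum {ι κ : Type*} (F : Finset ι) (F' : Finset κ) (f : ι → T) (g : κ → T) :
    MSys.ml (∑ i ∈ F, f i) (∑ j ∈ F', g j) = ∑ p ∈ F ×ˢ F', MSys.ml (f p.1) (g p.2) := by
  rw [sum_ml, Finset.sum_product]
  refine Finset.sum_congr rfl ?_
  intro i _
  rw [ml_sum]

end Measures

section Expressions

variable {K : Type u} {G : Type v}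

theorem meas_ne_zero (T : Type w) [MSys T] (e : Ex K G) : e.meas T ≠ 0 := by
  induction e with
  | mono c g => exact MSys.o_ne
  | add a b iha ihb => exact add_ne_zero' iha
  | mul a b iha ihb => exact ml_ne_zero iha ihb
  | inv a iha => exact iv_ne_zero _

theorem meas_add_left (T : Type w) [MSys T] (a b : Ex K G) :
    MSys.lt (a.meas T) ((Ex.add a b).meas T) := lt_add_self (meas_ne_zero T b)

theorem meas_add_right (T : Type w) [MSys T] (a b : Ex K G) :
    MSys.lt (b.meas T) ((Ex.add a b).meas T) := by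
  change MSys.lt _ (a.meas T + b.meas T)
  rw [add_comm]
  exact lt_add_self (meas_ne_zero T a)

theorem meas_mul_left (T : Type w) [MSys T] (a b : Ex K G) :
    mle (a.meas T) ((Ex.mul a b).meas T) := MSys.le_ml _ _ (meas_ne_zero T b)

theorem meas_mul_right (T : Type w) [MSys T] (a b : Ex K G) :
    mle (b.meas T) ((Ex.mul a b).meas T) := MSys.le_ml' _ _ (meas_ne_zero T a)

theorem meas_inv (T : Type w) [MSys T] (a : Ex K G) :
    MSys.lt (a.meas T) ((Ex.inv a).meas T) := MSys.lt_iv _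

variable [Field K] [Group G]

theorem hom_unique {χ : G → ℝ} {e : Ex K G} {r r' : ℝ} (h : e.Hom χ r) (h' : e.Hom χ r') :
    r = r' := by
  induction e generalizing r r' with
  | mono c g => exact h.symm.trans h'
  | add a b iha ihb => exact iha h.1 h'.1
  | mul a b iha ihb =>
    obtain ⟨s, t, h1, h2, h3⟩ := h
    obtain ⟨s', t', h1', h2', h3'⟩ := h'
    rw [← h1, ← h1', iha h2 h2', ihb h3 h3']
  | inv a iha => exact neg_injective (iha h h')

theorem hom_congr {χ χ' : G → ℝ} {e : Ex K G} {r : ℝ} (h : ∀ g ∈ e.supp, χ g = χ' g)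
    (h' : e.Hom χ r) : e.Hom χ' r := by
  induction e generalizing r with
  | mono c g =>
    have h1 : χ g = χ' g := h g rfl
    have h2 : χ g = r := h'
    change χ' g = r
    rw [← h1, h2]
  | add a b iha ihb =>
    exact ⟨iha (fun g hg => h g (Or.inl hg)) h'.1, ihb (fun g hg => h g (Or.inr hg)) h'.2⟩
  | mul a b iha ihb =>
    obtain ⟨s, t, h1, h2, h3⟩ := h'
    exact ⟨s, t, h1, iha (fun g hg => h g (Or.inl hg)) h2, ihb (fun g hg => h g (Or.inr hg)) h3⟩
  | inv a iha => exact iha (fun g hg => h g hg) h'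

theorem supp_finite (e : Ex K G) : e.supp.Finite := by
  induction e with
  | mono c g => exact Set.finite_singleton g
  | add a b iha ihb => exact iha.union ihb
  | mul a b iha ihb => exact iha.union ihb
  | inv a iha => exact iha

theorem supp_nonempty (e : Ex K G) : e.supp.Nonempty := by
  induction e with
  | mono c g => exact ⟨g, rfl⟩
  | add a b iha ihb => exact iha.inl
  | mul a b iha ihb => exact iha.inl
  | inv a iha => exact iha

theorem meas_conj (T : Type w) [MSys T] (t : G) (e : Ex K G) :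
    (e.conj t).meas T = e.meas T := by
  induction e with
  | mono c g => rfl
  | add a b iha ihb =>
    change (a.conj t).meas T + (b.conj t).meas T = _
    rw [iha, ihb]; rfl
  | mul a b iha ihb =>
    change MSys.ml ((a.conj t).meas T) ((b.conj t).meas T) = _
    rw [iha, ihb]; rfl
  | inv a iha =>
    change MSys.iv ((a.conj t).meas T) = _
    rw [iha]; rfl

theorem meas_nrm (T : Type w) [MSys T] (e : Ex K G) : e.nrm.meas T = e.meas T := by
  induction e with
  | mono c g => rfl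
  | add a b iha ihb =>
    change a.nrm.meas T + MSys.ml (b.nrm.meas T) MSys.o = _
    rw [iha, ihb, MSys.ml_o]; rfl
  | mul a b iha ihb =>
    change MSys.ml (a.nrm.meas T) ((b.nrm.conj a.tt).meas T) = _
    rw [meas_conj, iha, ihb]; rfl
  | inv a iha =>
    change MSys.iv ((a.nrm.conj (a.tt)⁻¹).meas T) = _
    rw [meas_conj, iha]; rfl

theorem supp_conj (t : G) (e : Ex K G) (g : G) :
    g ∈ (e.conj t).supp ↔ t⁻¹ * g * t ∈ e.supp := by
  induction e with
  | mono c h =>
    change g = t * h * t⁻¹ ↔ t⁻¹ * g * t = h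
    constructor
    · rintro rfl; group
    · rintro rfl; group
  | add a b iha ihb => exact or_congr iha ihb
  | mul a b iha ihb => exact or_congr iha ihb
  | inv a iha => exact iha

theorem tt_mem {M : Subgroup G} {e : Ex K G} (h : ∀ g ∈ e.supp, g ∈ M) : e.tt ∈ M := by
  induction e with
  | mono c g => exact h g rfl
  | add a b iha ihb => exact iha (fun g hg => h g (Or.inl hg))
  | mul a b iha ihb =>
    exact M.mul_mem (iha (fun g hg => h g (Or.inl hg))) (ihb (fun g hg => h g (Or.inr hg)))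
  | inv a iha => exact M.inv_mem (iha h)

theorem supp_conj_mem {M : Subgroup G} {e : Ex K G} (h : ∀ g ∈ e.supp, g ∈ M) {t : G}
    (ht : t ∈ M) : ∀ g ∈ (e.conj t).supp, g ∈ M := by
  intro g hg
  rw [supp_conj] at hg
  have h1 := h _ hg
  have h2 : g = t * (t⁻¹ * g * t) * t⁻¹ := by group
  rw [h2]
  exact M.mul_mem (M.mul_mem ht h1) (M.inv_mem ht)

theorem supp_nrm_mem {M : Subgroup G} {e : Ex K G} (h : ∀ g ∈ e.supp, g ∈ M) :
    ∀ g ∈ e.nrm.supp, g ∈ M := by
  induction e with
  | mono c g =>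
    intro g' hg'
    have h1 : g' = 1 := hg'
    rw [h1]; exact M.one_mem
  | add a b iha ihb =>
    intro g hg
    have ha : ∀ g ∈ a.supp, g ∈ M := fun g hg => h g (Or.inl hg)
    have hb : ∀ g ∈ b.supp, g ∈ M := fun g hg => h g (Or.inr hg)
    rcases hg with hg | hg | hg
    · exact iha ha g hg
    · exact ihb hb g hg
    · have h1 : g = b.tt * (a.tt)⁻¹ := hg
      rw [h1]
      exact M.mul_mem (tt_mem hb) (M.inv_mem (tt_mem ha))
  | mul a b iha ihb =>
    intro g hg
    have ha : ∀ g ∈ a.supp, g ∈ M := fun g hg => h g (Or.inl hg)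
    have hb : ∀ g ∈ b.supp, g ∈ M := fun g hg => h g (Or.inr hg)
    rcases hg with hg | hg
    · exact iha ha g hg
    · exact supp_conj_mem (ihb hb) (tt_mem ha) g hg
  | inv a iha =>
    exact supp_conj_mem (iha h) (M.inv_mem (tt_mem h))

theorem ischar_one {M : Subgroup G} {χ : G → ℝ} (h : IsChar M χ) : χ 1 = 0 := by
  have := h 1 M.one_mem 1 M.one_mem
  rw [mul_one] at this
  linarith

theorem ischar_inv {M : Subgroup G} {χ : G → ℝ} (h : IsChar M χ) {g : G} (hg : g ∈ M) :
    χ g⁻¹ = - χ g := by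
  have := h g hg g⁻¹ (M.inv_mem hg)
  rw [mul_inv_cancel, ischar_one h] at this
  linarith

theorem ischar_conj {M : Subgroup G} {χ : G → ℝ} (h : IsChar M χ) {g t : G} (hg : g ∈ M)
    (ht : t ∈ M) : χ (t * g * t⁻¹) = χ g := by
  rw [h _ (M.mul_mem ht hg) _ (M.inv_mem ht), h _ ht _ hg, ischar_inv h ht]
  ring

theorem ischar_conj' {M : Subgroup G} {χ : G → ℝ} (h : IsChar M χ) {g t : G} (hg : g ∈ M)
    (ht : t ∈ M) : χ (t⁻¹ * g * t) = χ g := by
  rw [h _ (M.mul_mem (M.inv_mem ht) hg) _ ht, h _ (M.inv_mem ht) _ hg, ischar_inv h ht]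
  ring

theorem IsChar.mono {M M' : Subgroup G} {χ : G → ℝ} (h : IsChar M χ) (h' : M' ≤ M) :
    IsChar M' χ := fun g hg k hk => h g (h' hg) k (h' hk)

/-- the degree is the value at the tip -/
theorem hom_tt {M : Subgroup G} {χ : G → ℝ} (hχ : IsChar M χ) {e : Ex K G} {r : ℝ}
    (h : ∀ g ∈ e.supp, g ∈ M) (h' : e.Hom χ r) : χ e.tt = r := by
  induction e generalizing r with
  | mono c g => exact h'
  | add a b iha ihb => exact iha (fun g hg => h g (Or.inl hg)) h'.1
  | mul a b iha ihb =>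
    obtain ⟨s, t, h1, h2, h3⟩ := h'
    have ha : ∀ g ∈ a.supp, g ∈ M := fun g hg => h g (Or.inl hg)
    have hb : ∀ g ∈ b.supp, g ∈ M := fun g hg => h g (Or.inr hg)
    change χ (a.tt * b.tt) = r
    rw [hχ _ (tt_mem ha) _ (tt_mem hb), iha ha h2, ihb hb h3, h1]
  | inv a iha =>
    change χ (a.tt)⁻¹ = r
    rw [ischar_inv hχ (tt_mem (M := M) (e := a) h), iha h h', neg_neg]

/-- `χ` vanishes on the support of the normalised expression if `e` is homogeneous -/
theorem nrm_zero {M : Subgroup G} {χ : G → ℝ} (hχ : IsChar M χ) {e : Ex K G} {r : ℝ}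
    (h : ∀ g ∈ e.supp, g ∈ M) (h' : e.Hom χ r) : ∀ g ∈ e.nrm.supp, χ g = 0 := by
  induction e generalizing r with
  | mono c g =>
    intro g' hg'
    have h1 : g' = 1 := hg'
    rw [h1]; exact ischar_one hχ
  | add a b iha ihb =>
    intro g hg
    have ha : ∀ g ∈ a.supp, g ∈ M := fun g hg => h g (Or.inl hg)
    have hb : ∀ g ∈ b.supp, g ∈ M := fun g hg => h g (Or.inr hg)
    rcases hg with hg | hg | hg
    · exact iha ha h'.1 g hg
    · exact ihb hb h'.2 g hg
    · have h1 : g = b.tt * (a.tt)⁻¹ := hg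
      rw [h1, hχ _ (tt_mem hb) _ (M.inv_mem (tt_mem ha)), ischar_inv hχ (tt_mem ha),
        hom_tt hχ ha h'.1, hom_tt hχ hb h'.2]
      ring
  | mul a b iha ihb =>
    intro g hg
    have ha : ∀ g ∈ a.supp, g ∈ M := fun g hg => h g (Or.inl hg)
    have hb : ∀ g ∈ b.supp, g ∈ M := fun g hg => h g (Or.inr hg)
    obtain ⟨s, t, h1, h2, h3⟩ := h'
    rcases hg with hg | hg
    · exact iha ha h2 g hg
    · have hg2 := (supp_conj _ _ _).1 hg
      have h4 := ihb hb h3 _ hg2
      have h5 : g ∈ M := supp_conj_mem (supp_nrm_mem hb) (tt_mem ha) g hg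
      rw [ischar_conj' hχ h5 (tt_mem ha)] at h4
      exact h4
  | inv a iha =>
    intro g hg
    have hg2 := (supp_conj _ _ _).1 hg
    have h4 := iha h h' _ hg2
    have h6 : (a.tt)⁻¹ ∈ M := M.inv_mem (tt_mem (M := M) (e := a) h)
    have h5 : g ∈ M := supp_conj_mem (supp_nrm_mem (M := M) (e := a) h) h6 g hg
    rw [ischar_conj' hχ h5 h6] at h4
    exact h4

theorem hom_conj {M : Subgroup G} {χ : G → ℝ} (hχ : IsChar M χ) {e : Ex K G} {r : ℝ} {t : G}
    (ht : t ∈ M) (h : ∀ g ∈ e.supp, g ∈ M) (h' : (e.conj t).Hom χ r) : e.Hom χ r := by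
  induction e generalizing r with
  | mono c g =>
    have h1 : χ (t * g * t⁻¹) = r := h'
    rw [ischar_conj hχ (h g rfl) ht] at h1
    exact h1
  | add a b iha ihb =>
    exact ⟨iha (fun g hg => h g (Or.inl hg)) h'.1, ihb (fun g hg => h g (Or.inr hg)) h'.2⟩
  | mul a b iha ihb =>
    obtain ⟨s, t, h1, h2, h3⟩ := h'
    exact ⟨s, t, h1, iha (fun g hg => h g (Or.inl hg)) h2, ihb (fun g hg => h g (Or.inr hg)) h3⟩
  | inv a iha => exact iha (fun g hg => h g hg) h'

/-- a homogeneous normalised expression has degree `0` and `χ` vanishes on its support -/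
theorem nrm_hom {M : Subgroup G} {χ : G → ℝ} (hχ : IsChar M χ) {e : Ex K G} {r : ℝ}
    (h : ∀ g ∈ e.supp, g ∈ M) (h' : e.nrm.Hom χ r) : r = 0 ∧ ∀ g ∈ e.nrm.supp, χ g = 0 := by
  induction e generalizing r with
  | mono c g =>
    have h1 : χ 1 = r := h'
    rw [ischar_one hχ] at h1
    refine ⟨h1.symm, ?_⟩
    intro g' hg'
    have h2 : g' = 1 := hg'
    rw [h2]; exact ischar_one hχ
  | add a b iha ihb =>
    have ha : ∀ g ∈ a.supp, g ∈ M := fun g hg => h g (Or.inl hg)
    have hb : ∀ g ∈ b.supp, g ∈ M := fun g hg => h g (Or.inr hg)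
    obtain ⟨h1, s, t, h2, h3, h4⟩ := h'
    obtain ⟨hr, h5⟩ := iha ha h1
    obtain ⟨hs, h6⟩ := ihb hb h3
    have h7 : χ (b.tt * (a.tt)⁻¹) = t := h4
    refine ⟨hr, ?_⟩
    intro g hg
    rcases hg with hg | hg | hg
    · exact h5 g hg
    · exact h6 g hg
    · have h8 : g = b.tt * (a.tt)⁻¹ := hg
      rw [h8, h7]
      linarith
  | mul a b iha ihb =>
    have ha : ∀ g ∈ a.supp, g ∈ M := fun g hg => h g (Or.inl hg)
    have hb : ∀ g ∈ b.supp, g ∈ M := fun g hg => h g (Or.inr hg)
    obtain ⟨s, t, h1, h2, h3⟩ := h'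
    obtain ⟨hs, h5⟩ := iha ha h2
    have h4 := hom_conj hχ (tt_mem ha) (supp_nrm_mem hb) h3
    obtain ⟨ht, h6⟩ := ihb hb h4
    refine ⟨by linarith, ?_⟩
    intro g hg
    rcases hg with hg | hg
    · exact h5 g hg
    · have hg2 := (supp_conj _ _ _).1 hg
      have h7 := h6 _ hg2
      have h8 : g ∈ M := supp_conj_mem (supp_nrm_mem hb) (tt_mem ha) g hg
      rw [ischar_conj' hχ h8 (tt_mem ha)] at h7
      exact h7
  | inv a iha =>
    have h6 : (a.tt)⁻¹ ∈ M := M.inv_mem (tt_mem (M := M) (e := a) h)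
    have h1 : (a.nrm.conj (a.tt)⁻¹).Hom χ (-r) := h'
    have h4 := hom_conj hχ h6 (supp_nrm_mem (M := M) (e := a) h) h1
    obtain ⟨hr, h5⟩ := iha h h4
    refine ⟨by linarith, ?_⟩
    intro g hg
    have hg2 := (supp_conj _ _ _).1 hg
    have h7 := h5 _ hg2
    have h8 : g ∈ M := supp_conj_mem (supp_nrm_mem (M := M) (e := a) h) h6 g hg
    rw [ischar_conj' hχ h8 h6] at h7
    exact h7

/-- expressions of measure at most `κ` are admissible -/
theorem adm_of_IH {T : Type w} [MSys T] {X : Subgroup G} {κ : T} (hI : IH K T X κ) (e : Ex K G)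
    (h : ∀ g ∈ e.supp, g ∈ X) (hm : mle (e.meas T) κ) : e.Adm := by
  induction e with
  | mono c g => trivial
  | add a b iha ihb =>
    exact ⟨iha (fun g hg => h g (Or.inl hg)) (mle_trans (mle_of_lt (meas_add_left T a b)) hm),
      ihb (fun g hg => h g (Or.inr hg)) (mle_trans (mle_of_lt (meas_add_right T a b)) hm)⟩
  | mul a b iha ihb =>
    exact ⟨iha (fun g hg => h g (Or.inl hg)) (mle_trans (meas_mul_left T a b) hm),
      ihb (fun g hg => h g (Or.inr hg)) (mle_trans (meas_mul_right T a b) hm)⟩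
  | inv a iha =>
    exact ⟨iha h (mle_trans (mle_of_lt (meas_inv T a)) hm),
      (hI a h (lt_of_lt_of_mle (meas_inv T a) hm)).1⟩

end Expressions

end LCH
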