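import Mathlib

/-!
Definitions for the embedding theorem for group algebras of locally indicable groups
(MP_b555a2_al, helper93).
-/

namespace LCH

universe u v w

/-- Rational expressions with coefficients in `K` and support in `G`. -/
inductive Ex (K : Type u) (G : Type v) : Type (max u v)
  | mono : K → G → Ex K G
  | add : Ex K G → Ex K G → Ex K G
  | mul : Ex K G → Ex K G → Ex K G
  | inv : Ex K G → Ex K G

/-- A system of measures (complexities). -/
class MSys (T : Type w) extends AddCommMonoid T where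
  o : T
  ml : T → T → T
  iv : T → T
  lt : T → T → Prop
  wf : WellFounded lt
  tr : ∀ a b c, lt a b → lt b c → lt a c
  add_lt : ∀ a b c, lt a b → lt (a + c) (b + c)
  pos : ∀ a, a ≠ 0 → lt 0 a
  o_ne : o ≠ 0
  o_lt : ∀ c, lt o (iv c)
  ml_o : ∀ a, ml a o = a
  ml_add : ∀ a b c, ml a (b + c) = ml a b + ml a c
  add_ml : ∀ a b c, ml (a + b) c = ml a c + ml b c
  zero_ml : ∀ a, ml 0 a = 0
  ml_zero : ∀ a, ml a 0 = 0
  ml_lt : ∀ a b c, lt a b → c ≠ 0 → lt (ml a c) (ml b c)
  ml_lt' : ∀ a b c, lt a b → c ≠ 0 → lt (ml c a) (ml c b)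
  le_ml : ∀ a b, b ≠ 0 → (a = ml a b ∨ lt a (ml a b))
  le_ml' : ∀ a b, b ≠ 0 → (a = ml b a ∨ lt a (ml b a))
  iv_lt : ∀ a b, lt a b → lt (iv a) (iv b)
  lt_iv : ∀ a, lt a (iv a)
  iv_add : ∀ a b c, lt a (iv c) → lt b (iv c) → lt (a + b) (iv c)
  iv_ml : ∀ a b c, lt a (iv c) → lt b (iv c) → lt (ml a b) (iv c)

/-- weak inequality of measures -/
def mle {T : Type w} [MSys T] (a b : T) : Prop := a = b ∨ MSys.lt a b

namespace Ex

variable {K : Type u} {G : Type v}

/-- The measure of an expression. -/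
def meas (T : Type w) [MSys T] : Ex K G → T
  | .mono _ _ => MSys.o
  | .add a b => a.meas T + b.meas T
  | .mul a b => MSys.ml (a.meas T) (b.meas T)
  | .inv a => MSys.iv (a.meas T)

/-- The support. -/
def supp : Ex K G → Set G
  | .mono _ g => {g}
  | .add a b => a.supp ∪ b.supp
  | .mul a b => a.supp ∪ b.supp
  | .inv a => a.supp

/-- the sum of a nonempty list -/
def sumE : Ex K G → List (Ex K G) → Ex K G
  | a, [] => a
  | a, b :: l => .add a (sumE b l)

/-- the product of a nonempty list -/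
def prodE : Ex K G → List (Ex K G) → Ex K G
  | a, [] => a
  | a, b :: l => .mul a (prodE b l)

section Grp
variable [Field K] [Group G]

/-- Conjugation by `t`. -/
def conj (t : G) : Ex K G → Ex K G
  | .mono c g => .mono c (t * g * t⁻¹)
  | .add a b => .add (conj t a) (conj t b)
  | .mul a b => .mul (conj t a) (conj t b)
  | .inv a => .inv (conj t a)

/-- The tip of an expression. -/
def tt : Ex K G → G
  | .mono _ g => g
  | .add a _ => a.tt
  | .mul a b => a.tt * b.tt
  | .inv a => (a.tt)⁻¹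

/-- The normalised expression: `e = nrm e * tt e`. -/
def nrm : Ex K G → Ex K G
  | .mono c _ => .mono c 1
  | .add a b => .add a.nrm (.mul b.nrm (.mono 1 (b.tt * (a.tt)⁻¹)))
  | .mul a b => .mul a.nrm (b.nrm.conj a.tt)
  | .inv a => .inv (a.nrm.conj (a.tt)⁻¹)

/-- `Hom χ e r`: the expression `e` is homogeneous of degree `r` with respect to `χ`. -/
def Hom (χ : G → ℝ) : Ex K G → ℝ → Prop
  | .mono _ g, r => χ g = r
  | .add a b, r => Hom χ a r ∧ Hom χ b r
  | .mul a b, r => ∃ s t : ℝ, s + t = r ∧ Hom χ a s ∧ Hom χ b t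
  | .inv a, r => Hom χ a (-r)

end Grp

end Ex

/-- `χ` is a real character on the subgroup `M`. -/
def IsChar {G : Type v} [Group G] (M : Subgroup G) (χ : G → ℝ) : Prop :=
  ∀ g ∈ M, ∀ h ∈ M, χ (g * h) = χ g + χ h

/-- `χ` does not vanish on `M`. -/
def NZ {G : Type v} [Group G] (M : Subgroup G) (χ : G → ℝ) : Prop := ∃ g ∈ M, χ g ≠ 0

/-- A subgroup `M` of `G` with a Conradian left order on it, given by its positive cone `P`. -/
structure Sit (G : Type v) [Group G] where
  M : Subgroup G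
  P : Set G
  sub : ∀ g ∈ P, g ∈ M
  one : (1 : G) ∉ P
  mul : ∀ x ∈ P, ∀ y ∈ P, x * y ∈ P
  tot : ∀ x ∈ M, x = 1 ∨ x ∈ P ∨ x⁻¹ ∈ P
  con : ∀ L : Subgroup G, L.FG → L ≠ ⊥ → L ≤ M →
    ∃ χ : G → ℝ, IsChar L χ ∧ NZ L χ ∧ ∀ g ∈ L, g ∈ P → 0 ≤ χ g

section Space

variable {G : Type v} [Group G]

/-- the order of the situation -/
def Sit.lt (s : Sit G) (x y : G) : Prop := x⁻¹ * y ∈ s.P

theorem Sit.lt_irrefl (s : Sit G) (x : G) : ¬ s.lt x x := by
  intro h
  have h' : x⁻¹ * x ∈ s.P := h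
  rw [inv_mul_cancel] at h'
  exact s.one h'

theorem Sit.lt_trans (s : Sit G) {x y z : G} (h1 : s.lt x y) (h2 : s.lt y z) : s.lt x z := by
  have h := s.mul _ h1 _ h2
  have h3 : (x⁻¹ * y) * (y⁻¹ * z) = x⁻¹ * z := by group
  rw [h3] at h
  exact h

theorem Sit.lt_tot (s : Sit G) {x y : G} (hx : x ∈ s.M) (hy : y ∈ s.M) :
    x = y ∨ s.lt x y ∨ s.lt y x := by
  rcases s.tot (x⁻¹ * y) (s.M.mul_mem (s.M.inv_mem hx) hy) with h | h | h
  · left
    have := eq_of_inv_mul_eq_one h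
    exact this
  · right; left; exact h
  · right; right
    have h3 : (x⁻¹ * y)⁻¹ = y⁻¹ * x := by group
    rw [h3] at h
    exact h

theorem Sit.lt_mul (s : Sit G) {x y : G} (g : G) : s.lt (g * x) (g * y) ↔ s.lt x y := by
  have h3 : (g * x)⁻¹ * (g * y) = x⁻¹ * y := by group
  unfold Sit.lt
  rw [h3]

/-- `x` is the least element of the support of `v`. -/
def Lead {K : Type u} [Field K] (s : Sit G) (v : G → K) (x : G) : Prop :=
  v x ≠ 0 ∧ ∀ y, v y ≠ 0 → y = x ∨ s.lt x y

/-- The space of functions with well-ordered support in `M`. -/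
def Sit.V (K : Type u) [Field K] (s : Sit G) : Submodule K (G → K) where
  carrier := {v | (∀ x, v x ≠ 0 → x ∈ s.M) ∧
    ∀ A : Set G, A.Nonempty → (∀ x ∈ A, v x ≠ 0) → ∃ x ∈ A, ∀ y ∈ A, y = x ∨ s.lt x y}
  zero_mem' := by
    refine ⟨fun x hx => absurd rfl hx, ?_⟩
    rintro A ⟨x, hx⟩ hA
    exact absurd rfl (hA x hx)
  add_mem' := by
    rintro v w ⟨hv1, hv2⟩ ⟨hw1, hw2⟩
    have key : ∀ x, (v + w) x ≠ 0 → v x ≠ 0 ∨ w x ≠ 0 := by
      intro x hx
      by_contra hcon
      push Not at hcon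
      apply hx
      rw [Pi.add_apply, hcon.1, hcon.2, add_zero]
    refine ⟨?_, ?_⟩
    · intro x hx
      rcases key x hx with h | h
      · exact hv1 x h
      · exact hw1 x h
    · intro A hne hA
      rcases Set.eq_empty_or_nonempty {x ∈ A | v x ≠ 0} with h1 | h1
      · apply hw2 A hne
        intro x hx
        rcases key x (hA x hx) with h | h
        · exfalso
          have : x ∈ {x ∈ A | v x ≠ 0} := ⟨hx, h⟩
          rw [h1] at this
          exact this
        · exact h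
      rcases Set.eq_empty_or_nonempty {x ∈ A | w x ≠ 0} with h2 | h2
      · apply hv2 A hne
        intro x hx
        rcases key x (hA x hx) with h | h
        · exact h
        · exfalso
          have : x ∈ {x ∈ A | w x ≠ 0} := ⟨hx, h⟩
          rw [h2] at this
          exact this
      obtain ⟨a, ha, ha'⟩ := hv2 {x ∈ A | v x ≠ 0} h1 (fun x hx => hx.2)
      obtain ⟨b, hb, hb'⟩ := hw2 {x ∈ A | w x ≠ 0} h2 (fun x hx => hx.2)
      rcases s.lt_tot (hv1 a ha.2) (hw1 b hb.2) with h | h | h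
      · refine ⟨a, ha.1, ?_⟩
        intro y hy
        rcases key y (hA y hy) with h' | h'
        · exact ha' y ⟨hy, h'⟩
        · have := hb' y ⟨hy, h'⟩
          rw [← h] at this
          exact this
      · refine ⟨a, ha.1, ?_⟩
        intro y hy
        rcases key y (hA y hy) with h' | h'
        · exact ha' y ⟨hy, h'⟩
        · rcases hb' y ⟨hy, h'⟩ with h3 | h3
          · rw [h3]; exact Or.inr h
          · exact Or.inr (s.lt_trans h h3)
      · refine ⟨b, hb.1, ?_⟩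
        intro y hy
        rcases key y (hA y hy) with h' | h'
        · rcases ha' y ⟨hy, h'⟩ with h3 | h3
          · rw [h3]; exact Or.inr h
          · exact Or.inr (s.lt_trans h h3)
        · exact hb' y ⟨hy, h'⟩
  smul_mem' := by
    rintro c v ⟨hv1, hv2⟩
    have key : ∀ x, (c • v) x ≠ 0 → v x ≠ 0 := by
      intro x hx h
      apply hx
      rw [Pi.smul_apply, h, smul_zero]
    exact ⟨fun x hx => hv1 x (key x hx), fun A hne hA => hv2 A hne (fun x hx => key x (hA x hx))⟩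

theorem Sit.tr_mem {K : Type u} [Field K] (s : Sit G) {g : G} (hg : g ∈ s.M) {v : G → K}
    (hv : v ∈ s.V K) : (fun x => v (g⁻¹ * x)) ∈ s.V K := by
  obtain ⟨hv1, hv2⟩ := hv
  refine ⟨?_, ?_⟩
  · intro x hx
    have := s.M.mul_mem hg (hv1 _ hx)
    rw [mul_inv_cancel_left] at this
    exact this
  · intro A hne hA
    obtain ⟨x, hx, hx'⟩ := hv2 ((fun x => g⁻¹ * x) '' A) (hne.image _) (by
      rintro _ ⟨x, hx, rfl⟩
      exact hA x hx)
    obtain ⟨x0, hx0, rfl⟩ := hx
    refine ⟨x0, hx0, ?_⟩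
    intro y hy
    rcases hx' (g⁻¹ * y) ⟨y, hy, rfl⟩ with h | h
    · left
      exact mul_left_cancel h
    · right
      exact (s.lt_mul g⁻¹).1 h

/-- Left translation by `g ∈ M`. -/
noncomputable def Sit.trn (K : Type u) [Field K] (s : Sit G) (g : G) (hg : g ∈ s.M) :
    Module.End K (s.V K) where
  toFun v := ⟨fun x => v.1 (g⁻¹ * x), s.tr_mem hg v.2⟩
  map_add' v w := by ext x; rfl
  map_smul' c v := by ext x; rfl

open Classical in
/-- Left translation, extended by `0`. -/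
noncomputable def Sit.tr (K : Type u) [Field K] (s : Sit G) (g : G) : Module.End K (s.V K) :=
  if hg : g ∈ s.M then s.trn K g hg else 0

/-- The value of an expression in the situation `s`. -/
noncomputable def Ex.ev {K : Type u} [Field K] (s : Sit G) : Ex K G → Module.End K (s.V K)
  | .mono c g => c • s.tr K g
  | .add a b => a.ev s + b.ev s
  | .mul a b => a.ev s * b.ev s
  | .inv a => Ring.inverse (a.ev s)

/-- `T` is compatible with leading positions, by means of `φ`. -/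
def VCw {K : Type u} [Field K] (s : Sit G) (T : Module.End K (s.V K)) (φ : G → G) : Prop :=
  (∀ x ∈ s.M, φ x ∈ s.M) ∧ (∀ y ∈ s.M, ∃ x ∈ s.M, φ x = y) ∧
    (∀ x ∈ s.M, ∀ y ∈ s.M, s.lt x y → s.lt (φ x) (φ y)) ∧
    ∀ (v : s.V K) (x : G), Lead s v.1 x → Lead s (T v).1 (φ x)

/-- `T` is compatible with leading positions. -/
def VC {K : Type u} [Field K] (s : Sit G) (T : Module.End K (s.V K)) : Prop :=
  ∃ φ : G → G, VCw s T φ

/-- `T` raises the values of `χ` on supports by at least `r`. -/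
def Fil {K : Type u} [Field K] (s : Sit G) (χ : G → ℝ) (r : ℝ) (T : Module.End K (s.V K)) : Prop :=
  ∀ (a : ℝ) (v : s.V K), (∀ x, v.1 x ≠ 0 → a ≤ χ x) → ∀ x, (T v).1 x ≠ 0 → a + r ≤ χ x

variable {K : Type u} [Field K]

/-- `e` vanishes in every situation. -/
def Ex.Z (e : Ex K G) : Prop := ∀ s : Sit G, (∀ g ∈ e.supp, g ∈ s.M) → e.ev s = 0

/-- `e` is compatible with leading positions in every situation. -/
def Ex.N (e : Ex K G) : Prop := ∀ s : Sit G, (∀ g ∈ e.supp, g ∈ s.M) → VC s (e.ev s)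

/-- consistency -/
def Ex.Cons (e : Ex K G) : Prop := e.Z ∨ e.N

/-- all expressions that are inverted in `e` are consistent -/
def Ex.Adm : Ex K G → Prop
  | .mono _ _ => True
  | .add a b => a.Adm ∧ b.Adm
  | .mul a b => a.Adm ∧ b.Adm
  | .inv a => a.Adm ∧ a.Cons

variable (K) in
/-- All expressions with support in `X` are consistent. -/
def Good (X : Subgroup G) : Prop := ∀ e : Ex K G, (∀ g ∈ e.supp, g ∈ X) → e.Cons

/-- A situation with a character `f`, nonnegative on the cone, that agrees with `χ` on `L`. -/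
def At (s : Sit G) (f : G → ℝ) (L : Subgroup G) (χ : G → ℝ) : Prop :=
  L ≤ s.M ∧ IsChar s.M f ∧ (∀ g ∈ s.P, 0 ≤ f g) ∧ ∀ g ∈ L, f g = χ g

/-- The index set of the expansions along `χ + t ψ`. -/
structure Idx (L : Subgroup G) (χ ψ : G → ℝ) where
  t : ℝ
  s : Sit G
  f : G → ℝ
  at' : At s f L (fun g => χ g + t * ψ g)

/-- the product of all operator algebras -/
abbrev Alg (K : Type u) [Field K] (L : Subgroup G) (χ ψ : G → ℝ) :=
  (i : Idx L χ ψ) → Module.End K (i.s.V K)

/-- the family of the values of `e` -/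
noncomputable def Ex.evA (e : Ex K G) (L : Subgroup G) (χ ψ : G → ℝ) : Alg K L χ ψ :=
  fun i => e.ev i.s

/-- the product of the operator algebras of all situations that contain `L` -/
abbrev AlgJ (K : Type u) [Field K] (L : Subgroup G) :=
  (s : {s : Sit G // L ≤ s.M}) → Module.End K (s.1.V K)

/-- the family of the values of `e` -/
noncomputable def Ex.evJ (e : Ex K G) (L : Subgroup G) : AlgJ K L := fun s => e.ev s.1

/-- A ring with a decreasing real filtration. -/
structure FR (A : Type w) [Ring A] where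
  F : ℝ → AddSubgroup A
  anti : ∀ a b, a ≤ b → F b ≤ F a
  one : (1 : A) ∈ F 0
  mul : ∀ a b x y, x ∈ F a → y ∈ F b → x * y ∈ F (a + b)

theorem Fil.add {s : Sit G} {χ : G → ℝ} {r : ℝ} {S T : Module.End K (s.V K)}
    (h1 : Fil s χ r S) (h2 : Fil s χ r T) : Fil s χ r (S + T) := by
  intro a v hv x hx
  by_contra hcon
  have e1 : (S v).1 x = 0 := by
    by_contra h
    exact hcon (h1 a v hv x h)
  have e2 : (T v).1 x = 0 := by
    by_contra h
    exact hcon (h2 a v hv x h)
  apply hx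
  change (S v).1 x + (T v).1 x = 0
  rw [e1, e2, add_zero]

theorem Fil.neg {s : Sit G} {χ : G → ℝ} {r : ℝ} {S : Module.End K (s.V K)}
    (h1 : Fil s χ r S) : Fil s χ r (-S) := by
  intro a v hv x hx
  apply h1 a v hv x
  intro h
  apply hx
  change -(S v).1 x = 0
  rw [h, neg_zero]

theorem Fil.zero {s : Sit G} {χ : G → ℝ} {r : ℝ} : Fil s χ r (0 : Module.End K (s.V K)) := by
  intro a v _ x hx
  exact absurd rfl hx

theorem Fil.one {s : Sit G} {χ : G → ℝ} : Fil s χ 0 (1 : Module.End K (s.V K)) := by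
  intro a v hv x hx
  rw [add_zero]
  exact hv x hx

theorem Fil.mul {s : Sit G} {χ : G → ℝ} {q r : ℝ} {S T : Module.End K (s.V K)}
    (h1 : Fil s χ q S) (h2 : Fil s χ r T) : Fil s χ (q + r) (S * T) := by
  intro a v hv x hx
  have := h1 (a + r) (T v) (h2 a v hv) x hx
  linarith

theorem Fil.anti {s : Sit G} {χ : G → ℝ} {q r : ℝ} (hqr : q ≤ r) {S : Module.End K (s.V K)}
    (h1 : Fil s χ r S) : Fil s χ q S := by
  intro a v hv x hx
  have := h1 a v hv x hx
  linarith

/-- The filtration, uniform over all indices with `|t| < ε`. -/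
noncomputable def Phi (K : Type u) [Field K] (L : Subgroup G) (χ ψ : G → ℝ) (ε : ℝ) :
    FR (Alg K L χ ψ) where
  F B :=
    { carrier := {T | ∀ i : Idx L χ ψ, |i.t| < ε → Fil i.s i.f B (T i)}
      add_mem' := fun h1 h2 i hi => (h1 i hi).add (h2 i hi)
      zero_mem' := fun _ _ => Fil.zero
      neg_mem' := fun h1 i hi => (h1 i hi).neg }
  anti := fun _ _ hab _ hT i hi => (hT i hi).anti hab
  one := fun _ _ => Fil.one
  mul := fun _ _ _ _ hx hy i hi => (hx i hi).mul (hy i hi)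

/-- `x` has the expansion `∑_{r ∈ S} y r`. -/
def Expn {A : Type w} [Ring A] (Φ : FR A) (x : A) (S : Set ℝ) (y : ℝ → A) : Prop :=
  (∀ B : ℝ, (S ∩ Set.Iio B).Finite) ∧ (∀ r ∈ S, ∃ b : ℝ, y r ∈ Φ.F b) ∧
    ∀ B : ℝ, ∃ B' : ℝ, ∀ B'' : ℝ, B' ≤ B'' → ∀ T : Finset ℝ,
      (∀ r, r ∈ T ↔ r ∈ S ∧ r < B'') → x - ∑ r ∈ T, y r ∈ Φ.F B

/-- Uniform expansion of `e` near `χ` in the direction `ψ`. -/
def UE (T : Type w) [MSys T] (e : Ex K G) (L : Subgroup G) (χ ψ : G → ℝ) : Prop :=
  ∃ ε : ℝ, 0 < ε ∧ ∃ (S : Set ℝ) (c : ℝ → Ex K G),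
    (∀ r, e.Hom χ r → S = {r}) ∧
    (∀ r ∈ S, (∀ g ∈ (c r).supp, g ∈ L) ∧ (c r).Hom χ r) ∧
    (∀ F : Finset ℝ, (∀ r ∈ F, r ∈ S) → mle (∑ r ∈ F, (c r).meas T) (e.meas T)) ∧
    ((¬ ∃ r, e.Hom χ r) → ∀ r ∈ S, MSys.lt ((c r).meas T) (e.meas T)) ∧
    Expn (Phi K L χ ψ ε) (e.evA L χ ψ) S (fun r => (c r).evA L χ ψ)

/-- Homogeneous bound. -/
def HB (e : Ex K G) (L : Subgroup G) (χ ψ : G → ℝ) : Prop :=
  ∀ r, e.Hom χ r → ∃ C : ℝ, ∀ i : Idx L χ ψ, Fil i.s i.f (r - C * |i.t|) (e.ev i.s)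

/-- The package that is proved by induction on the measure. -/
def Pack (X : Subgroup G) (e : Ex K G) : Prop :=
  e.Cons ∧ ∀ (L : Subgroup G) (χ ψ : G → ℝ), L ≤ X → IsChar L χ → IsChar L ψ →
    (∀ g ∈ e.supp, g ∈ L) → HB (.inv e) L χ ψ

/-- induction hypothesis -/
def IH (K : Type u) [Field K] (T : Type w) [MSys T] (X : Subgroup G) (κ : T) : Prop :=
  ∀ e : Ex K G, (∀ g ∈ e.supp, g ∈ X) → MSys.lt (e.meas T) κ → Pack X e

/-- Leading form of `e` near `χ` in the direction `ψ`. -/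
def LF (e : Ex K G) (L : Subgroup G) (χ ψ : G → ℝ) : Prop :=
  (∃ ε : ℝ, 0 < ε ∧ ∀ i : Idx L χ ψ, |i.t| < ε → e.ev i.s = 0) ∨
  (∃ ε δ : ℝ, 0 < ε ∧ 0 < δ ∧ ∃ (r : ℝ) (f : Ex K G), (∀ g ∈ f.supp, g ∈ L) ∧ f.Hom χ r ∧ f.N ∧
    HB (.inv f) L χ ψ ∧
    ∀ i : Idx L χ ψ, |i.t| < ε → Fil i.s i.f δ ((Ex.inv f).ev i.s * e.ev i.s - 1))

/-- `G` is locally indicable. -/
def LI (G : Type v) [Group G] : Prop :=
  ∀ H : Subgroup G, H.FG → H ≠ ⊥ → ∃ φ : H →* Multiplicative ℤ, φ ≠ 1

/-- any two homomorphisms to the integers are dependent -/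
def Rk1 (H : Subgroup G) : Prop :=
  ∀ φ ψ : H →* Multiplicative ℤ, ∃ m n : ℤ, (m ≠ 0 ∨ n ≠ 0) ∧ φ ^ m * ψ ^ n = 1

/-- the left Ore condition of the group algebra of `H` -/
def OreK (K : Type u) [Field K] (H : Subgroup G) : Prop :=
  ∀ a b : MonoidAlgebra K H, b ≠ 0 → ∃ c d : MonoidAlgebra K H, d ≠ 0 ∧ d * a = c * b

/-- the common kernel of all homomorphisms of `H` to the integers -/
def Ker (H : Subgroup G) : Subgroup G :=
  (⨅ φ : H →* Multiplicative ℤ, φ.ker).map H.subtype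

/-- value in every situation with a character that agrees with `χ` on `L`: zero -/
def AA (e : Ex K G) (L : Subgroup G) (χ : G → ℝ) : Prop :=
  ∀ (s : Sit G) (f : G → ℝ), At s f L χ → e.ev s = 0

/-- the same: compatible -/
def BB (e : Ex K G) (L : Subgroup G) (χ : G → ℝ) : Prop :=
  ∀ (s : Sit G) (f : G → ℝ), At s f L χ → VC s (e.ev s)

/-- the order on the coset `H x`, transported to `H` -/
def Sit.cs (s : Sit G) (H : Subgroup G) (hH : H ≤ s.M) (x : G) (hx : x ∈ s.M) : Sit G where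
  M := H
  P := {g | g ∈ H ∧ x⁻¹ * g * x ∈ s.P}
  sub g hg := hg.1
  one h := by
    have := h.2
    rw [mul_one, inv_mul_cancel] at this
    exact s.one this
  mul a ha b hb := by
    refine ⟨H.mul_mem ha.1 hb.1, ?_⟩
    have := s.mul _ ha.2 _ hb.2
    have e : x⁻¹ * a * x * (x⁻¹ * b * x) = x⁻¹ * (a * b) * x := by group
    rw [e] at this
    exact this
  tot g hg := by
    rcases s.tot (x⁻¹ * g * x) (s.M.mul_mem (s.M.mul_mem (s.M.inv_mem hx) (hH hg)) hx)
      with h | h | h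
    · left
      have e : g = x * (x⁻¹ * g * x) * x⁻¹ := by group
      rw [e, h]
      group
    · right; left; exact ⟨hg, h⟩
    · right; right
      refine ⟨H.inv_mem hg, ?_⟩
      have e : (x⁻¹ * g * x)⁻¹ = x⁻¹ * g⁻¹ * x := by group
      rw [e] at h
      exact h
  con L hL hne hLH := by
    obtain ⟨χ, h1, h2, h3⟩ := s.con (L.map (MulAut.conj x⁻¹).toMonoidHom)
      (by
        classical
        obtain ⟨S, rfl⟩ := hL
        refine ⟨S.image (MulAut.conj x⁻¹).toMonoidHom, ?_⟩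
        rw [MonoidHom.map_closure, Finset.coe_image])
      (by
        intro h
        apply hne
        exact (Subgroup.map_eq_bot_iff_of_injective L (MulAut.conj x⁻¹).injective).1 h)
      (by
        rintro _ ⟨g, hg, rfl⟩
        have := s.M.mul_mem (s.M.mul_mem (s.M.inv_mem hx) (hH (hLH hg))) hx
        simpa using this)
    have hmem : ∀ g ∈ L, x⁻¹ * g * x ∈ L.map (MulAut.conj x⁻¹).toMonoidHom := by
      intro g hg
      exact ⟨g, hg, by simp⟩
    refine ⟨fun g => χ (x⁻¹ * g * x), ?_, ?_, ?_⟩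
    · intro g hg h hh
      have e : x⁻¹ * (g * h) * x = (x⁻¹ * g * x) * (x⁻¹ * h * x) := by group
      change χ (x⁻¹ * (g * h) * x) = _
      rw [e]
      exact h1 _ (hmem g hg) _ (hmem h hh)
    · obtain ⟨g, hg, hg'⟩ := h2
      obtain ⟨g0, hg0, rfl⟩ := hg
      refine ⟨g0, hg0, ?_⟩
      simpa using hg'
    · intro g hg hgP
      exact h3 _ (hmem g hg) hgP.2

open Classical in
/-- restriction to the coset `H x`, transported to `H` -/
noncomputable def rsf (H : Subgroup G) (x : G) (v : G → K) : G → K :=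
  fun h => if h ∈ H then v (h * x) else 0

/-- restriction to the coset as a linear map of the spaces -/
noncomputable def Sit.rs (s : Sit G) (H : Subgroup G) (hH : H ≤ s.M) (x : G) (hx : x ∈ s.M) :
    s.V K →ₗ[K] (s.cs H hH x hx).V K where
  toFun v := ⟨rsf H x v.1, by
    obtain ⟨v, hv1, hv2⟩ := v
    have key : ∀ h, rsf H x v h ≠ 0 → h ∈ H ∧ v (h * x) ≠ 0 := by
      intro h hh
      unfold rsf at hh
      by_cases hm : h ∈ H
      · rw [if_pos hm] at hh
        exact ⟨hm, hh⟩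
      · rw [if_neg hm] at hh
        exact absurd rfl hh
    refine ⟨fun h hh => (key h hh).1, ?_⟩
    intro A hne hA
    obtain ⟨y, hy, hy'⟩ := hv2 ((fun h => h * x) '' A) (hne.image _) (by
      rintro _ ⟨h, hh, rfl⟩
      exact (key h (hA h hh)).2)
    obtain ⟨a, ha, rfl⟩ := hy
    refine ⟨a, ha, ?_⟩
    intro b hb
    rcases hy' (b * x) ⟨b, hb, rfl⟩ with h | h
    · left
      exact mul_right_cancel h
    · right
      refine ⟨H.mul_mem (H.inv_mem (key a (hA a ha)).1) (key b (hA b hb)).1, ?_⟩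
      have h' : (a * x)⁻¹ * (b * x) ∈ s.P := h
      have e : (a * x)⁻¹ * (b * x) = x⁻¹ * (a⁻¹ * b) * x := by group
      rw [e] at h'
      exact h'⟩
  map_add' v w := by
    ext h
    change rsf H x (v.1 + w.1) h = rsf H x v.1 h + rsf H x w.1 h
    unfold rsf
    by_cases hm : h ∈ H
    · rw [if_pos hm, if_pos hm, if_pos hm]; rfl
    · rw [if_neg hm, if_neg hm, if_neg hm, add_zero]
  map_smul' c v := by
    ext h
    change rsf H x (c • v.1) h = c • rsf H x v.1 h
    unfold rsf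
    by_cases hm : h ∈ H
    · rw [if_pos hm, if_pos hm]; rfl
    · rw [if_neg hm, if_neg hm, smul_zero]

end Space

end LCH
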