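import Pool.Agent.Helper93.LCH.Defs

/-!
Statements of the rows (MP_b555a2_al, ChainCriterion, helper93).
-/

namespace LCH

universe u v w

/-- MEA: there is a system of measures -/
def ST_MEA : Prop := ∃ T : Type 1, Nonempty (MSys T)

/-- CE: Conradian orders with a given nonnegative character -/
def ST_CE : Prop := ∀ (G : Type v) [Group G], LI G → ∀ (M : Subgroup G) (χ : G → ℝ),
  IsChar M χ → ∃ s : Sit G, s.M = M ∧ ∀ g ∈ s.P, 0 ≤ χ g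

/-- FRC: rings of left fractions inside a ring -/
def ST_FRC : Prop := ∀ (A : Type w) [Ring A] [Nontrivial A] (S : Subring A), (∀ x ∈ S, x ≠ 0 → IsUnit x) →
  (∀ a ∈ S, ∀ b ∈ S, b ≠ 0 → ∃ c ∈ S, ∃ d ∈ S, d ≠ 0 ∧ d * a = c * b) →
  ∃ Q : Subring A, (∀ x, x ∈ Q ↔ ∃ a ∈ S, ∃ b ∈ S, b ≠ 0 ∧ b * x = a) ∧ S ≤ Q ∧
    ∀ x ∈ Q, Ring.inverse x ∈ Q

/-- SKL: skew Laurent polynomials over a division subring satisfy the left Ore condition.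
`D` a division subring of `A`, `τ` a unit normalising `D`, nonzero Laurent polynomials are units. -/
def ST_SKL : Prop := ∀ (A : Type w) [Ring A] [Nontrivial A] (D : Subring A) (τ : Aˣ),
  (∀ x ∈ D, x ≠ 0 → ∃ y ∈ D, x * y = 1 ∧ y * x = 1) →
  (∀ x ∈ D, (τ : A) * x * ((τ⁻¹ : Aˣ) : A) ∈ D) →
  (∀ x ∈ D, ((τ⁻¹ : Aˣ) : A) * x * (τ : A) ∈ D) →
  (∀ (n : ℕ) (d : Fin n → A), (∀ i, d i ∈ D) → (∃ i, d i ≠ 0) →
    IsUnit (∑ i : Fin n, d i * (τ : A) ^ (i : ℕ))) →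
  ∃ S : Subring A,
    (∀ x, x ∈ S ↔ ∃ (n : ℕ) (d : Fin n → A) (k : ℕ), (∀ i, d i ∈ D) ∧
      x = (∑ i : Fin n, d i * (τ : A) ^ (i : ℕ)) * ((τ⁻¹ : Aˣ) : A) ^ k) ∧
    (∀ x ∈ S, x ≠ 0 → IsUnit x) ∧
    (∀ a ∈ S, ∀ b ∈ S, b ≠ 0 → ∃ c ∈ S, ∃ d ∈ S, d ≠ 0 ∧ d * a = c * b)

/-- XSH: multiplication of an expansion by one element, with a shift of the degrees -/
def ST_XSH : Prop := ∀ (A : Type w) [Ring A] (Φ : FR A) (x u : A) (S : Set ℝ) (y : ℝ → A)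
  (b q : ℝ), Expn Φ x S y → u ∈ Φ.F b →
  Expn Φ (x * u) {r | r - q ∈ S} (fun r => y (r - q) * u) ∧
  Expn Φ (u * x) {r | r - q ∈ S} (fun r => u * y (r - q))

open Classical in
/-- XADD: sum of two expansions -/
def ST_XADD : Prop := ∀ (A : Type w) [Ring A] (Φ : FR A) (x x' : A) (S S' : Set ℝ)
  (y y' : ℝ → A), Expn Φ x S y → Expn Φ x' S' y' →
  Expn Φ (x + x') (S ∪ S') (fun r => (if r ∈ S then y r else 0) + (if r ∈ S' then y' r else 0))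

/-- XMUL: product of two expansions -/
def ST_XMUL : Prop := ∀ (A : Type w) [Ring A] (Φ : FR A) (x x' : A) (S S' : Set ℝ)
  (y y' : ℝ → A), Expn Φ x S y → Expn Φ x' S' y' →
  (∀ s : ℝ, {p : ℝ × ℝ | p.1 ∈ S ∧ p.2 ∈ S' ∧ p.1 + p.2 = s}.Finite) ∧
  ∀ w : ℝ → A, (∀ (s : ℝ) (W : Finset (ℝ × ℝ)),
      (∀ p, p ∈ W ↔ p.1 ∈ S ∧ p.2 ∈ S' ∧ p.1 + p.2 = s) → w s = ∑ p ∈ W, y p.1 * y' p.2) →
    Expn Φ (x * x') {s | ∃ p : ℝ × ℝ, p.1 ∈ S ∧ p.2 ∈ S' ∧ p.1 + p.2 = s} w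

/-- XINV: the expansion of an inverse of `1 + η` -/
def ST_XINV : Prop := ∀ (A : Type w) [Ring A] (Φ : FR A) (η z : A) (S : Set ℝ)
  (y : ℝ → A) (δ : ℝ), 0 < δ → Expn Φ η S y → (∀ r ∈ S, 0 < r) → (∀ r ∈ S, y r ∈ Φ.F δ) →
  (1 + η) * z = 1 → z ∈ Φ.F 0 →
  (∀ s : ℝ, {l : List ℝ | (∀ r ∈ l, r ∈ S) ∧ l.sum = s}.Finite) ∧
  ∀ w : ℝ → A, (∀ (s : ℝ) (W : Finset (List ℝ)),
      (∀ l, l ∈ W ↔ (∀ r ∈ l, r ∈ S) ∧ l.sum = s) →
        w s = ∑ l ∈ W, (l.map (fun r => - y r)).prod) →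
    Expn Φ z {s | ∃ l : List ℝ, (∀ r ∈ l, r ∈ S) ∧ l.sum = s} w

/-- GLB: a locally constant alternative on the nonzero characters of a group of rank
different from one is constant -/
def ST_GLB : Prop := ∀ (G : Type v) [Group G] (L : Subgroup G) (A B : (G → ℝ) → Prop),
  ¬ Rk1 L →
  (∀ χ ψ : G → ℝ, IsChar L χ → IsChar L ψ → NZ L χ → ∃ ε : ℝ, 0 < ε ∧
    ((∀ t : ℝ, |t| < ε → A (fun g => χ g + t * ψ g)) ∨
     (∀ t : ℝ, |t| < ε → B (fun g => χ g + t * ψ g)))) →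
  (∀ χ : G → ℝ, IsChar L χ → NZ L χ → ¬ (A χ ∧ B χ)) →
  (∀ χ : G → ℝ, IsChar L χ → NZ L χ → A χ) ∨ (∀ χ : G → ℝ, IsChar L χ → NZ L χ → B χ)

/-- SPH: spherical completeness -/
def ST_SPH : Prop := ∀ (K : Type u) [Field K] (G : Type v) [Group G] (s : Sit G)
  (T : Module.End K (s.V K)), VC s T → IsUnit T

/-- MVC: sums of compatible operators with pointwise different `φ` -/
def ST_MVC : Prop := ∀ (K : Type u) [Field K] (G : Type v) [Group G] (s : Sit G) (n : ℕ)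
  (T : Fin (n + 1) → Module.End K (s.V K)) (φ : Fin (n + 1) → G → G),
  (∀ i, VCw s (T i) (φ i)) → (∀ i j, i ≠ j → ∀ x ∈ s.M, φ i x ≠ φ j x) → VC s (∑ i, T i)

/-- ONE: `1 + η` with `η` of positive degree -/
def ST_ONE : Prop := ∀ (K : Type u) [Field K] (G : Type v) [Group G] (s : Sit G) (f : G → ℝ),
  IsChar s.M f → (∀ g ∈ s.P, 0 ≤ f g) → ∀ (δ : ℝ) (η : Module.End K (s.V K)), 0 < δ →
  Fil s f δ η → VC s (1 + η) ∧ Fil s f 0 (Ring.inverse (1 + η))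

/-- EXA: homogeneous expressions respect the degree exactly -/
def ST_EXA : Prop := ∀ (K : Type u) [Field K] (G : Type v) [Group G] (s : Sit G) (f : G → ℝ),
  IsChar s.M f → ∀ (e : Ex K G) (r : ℝ), (∀ g ∈ e.supp, g ∈ s.M) → e.Hom f r →
  Fil s f r (e.ev s)

/-- TRC: transfer to cosets -/
def ST_TRC : Prop := ∀ (K : Type u) [Field K] (G : Type v) [Group G] (s : Sit G)
  (H : Subgroup G) (hH : H ≤ s.M) (x : G) (hx : x ∈ s.M) (e : Ex K G), e.Adm →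
  (∀ g ∈ e.supp, g ∈ H) → ∀ v : s.V K,
    s.rs H hH x hx (e.ev s v) = e.ev (s.cs H hH x hx) (s.rs H hH x hx v)

/-- AMB: from situations with a character, nonzero on `L`, to all situations -/
def ST_AMB : Prop := ∀ (K : Type u) [Field K] (G : Type v) [Group G] (L : Subgroup G)
  (e : Ex K G), L.FG → L ≠ ⊥ → (∀ g ∈ e.supp, g ∈ L) → e.Adm →
  ((∀ χ : G → ℝ, IsChar L χ → NZ L χ → AA e L χ) → ∀ s : Sit G, L ≤ s.M → e.ev s = 0) ∧
  ((∀ χ : G → ℝ, IsChar L χ → NZ L χ → BB e L χ) → ∀ s : Sit G, L ≤ s.M → VC s (e.ev s))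

/-- SCA: expressions with trivial support -/
def ST_SCA : Prop := ∀ (K : Type u) [Field K] (G : Type v) [Group G] (e : Ex K G),
  (∀ g ∈ e.supp, g = 1) → e.Cons

/-- FRE: evaluation of expressions in a ring of fractions -/
def ST_FRE : Prop := ∀ (K : Type u) [Field K] (G : Type v) [Group G] (L : Subgroup G)
  (S : Subring (AlgJ K L)), (∀ x ∈ S, x ≠ 0 → ∀ s, VC s.1 (x s)) →
  (∀ a ∈ S, ∀ b ∈ S, b ≠ 0 → ∃ c ∈ S, ∃ d ∈ S, d ≠ 0 ∧ d * a = c * b) →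
  (∀ (c : K) (g : G), g ∈ L → (Ex.mono c g).evJ L ∈ S) →
  ∀ e : Ex K G, (∀ g ∈ e.supp, g ∈ L) →
    (∀ s : Sit G, L ≤ s.M → e.ev s = 0) ∨ (∀ s : Sit G, L ≤ s.M → VC s (e.ev s))

/-- RKA: rank one, Ore case -/
def ST_RKA : Prop := ∀ (K : Type u) [Field K] (G : Type v) [Group G] (L : Subgroup G),
  OreK K L → ∀ e : Ex K G, (∀ g ∈ e.supp, g ∈ L) →
    (∀ s : Sit G, L ≤ s.M → e.ev s = 0) ∨ (∀ s : Sit G, L ≤ s.M → VC s (e.ev s))

/-- RKB: rank one, the kernel is good -/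
def ST_RKB : Prop := ∀ (K : Type u) [Field K] (G : Type v) [Group G], LI G →
  ∀ L : Subgroup G, L.FG → L ≠ ⊥ → Rk1 L → Good K (Ker L) → ∀ e : Ex K G,
    (∀ g ∈ e.supp, g ∈ L) →
    (∀ s : Sit G, L ≤ s.M → e.ev s = 0) ∨ (∀ s : Sit G, L ≤ s.M → VC s (e.ev s))

/-- HBD: bounds of homogeneous expressions -/
def ST_HBD : Prop := ∀ (K : Type u) [Field K] (G : Type v) [Group G] (T : Type w) [MSys T]
  (X : Subgroup G) (κ : T), IH K T X κ → ∀ (e : Ex K G) (L : Subgroup G) (χ ψ : G → ℝ), L ≤ X →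
  IsChar L χ → IsChar L ψ → (∀ g ∈ e.supp, g ∈ L) → mle (e.meas T) κ → HB e L χ ψ

/-- UEH: expansion of homogeneous expressions -/
def ST_UEH : Prop := ∀ (K : Type u) [Field K] (G : Type v) [Group G] (T : Type w) [MSys T]
  (e : Ex K G) (L : Subgroup G) (χ ψ : G → ℝ), (∀ g ∈ e.supp, g ∈ L) → (∃ r, e.Hom χ r) →
  HB e L χ ψ → UE T e L χ ψ

/-- UEA: expansion of a sum -/
def ST_UEA : Prop := ∀ (K : Type u) [Field K] (G : Type v) [Group G] (T : Type w) [MSys T]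
  (a b : Ex K G) (L : Subgroup G) (χ ψ : G → ℝ), (¬ ∃ r, (Ex.add a b).Hom χ r) →
  UE T a L χ ψ → UE T b L χ ψ → UE T (.add a b) L χ ψ

/-- UEM: expansion of a product -/
def ST_UEM : Prop := ∀ (K : Type u) [Field K] (G : Type v) [Group G] (T : Type w) [MSys T]
  (a b : Ex K G) (L : Subgroup G) (χ ψ : G → ℝ), (¬ ∃ r, (Ex.mul a b).Hom χ r) →
  UE T a L χ ψ → UE T b L χ ψ → UE T (.mul a b) L χ ψ

/-- UEI: expansion of an inverse -/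
def ST_UEI : Prop := ∀ (K : Type u) [Field K] (G : Type v) [Group G] (T : Type w) [MSys T],
  LI G → ∀ (X : Subgroup G) (κ : T), IH K T X κ →
  ∀ (a : Ex K G) (L : Subgroup G) (χ ψ : G → ℝ), L ≤ X → IsChar L χ → IsChar L ψ →
  (∀ g ∈ a.supp, g ∈ L) → mle ((Ex.inv a).meas T) κ → (¬ ∃ r, a.Hom χ r) →
  UE T a L χ ψ → UE T (.inv a) L χ ψ

/-- UEL: expansions of all expressions of measure at most `κ` -/
def ST_UEL : Prop := ∀ (K : Type u) [Field K] (G : Type v) [Group G] (T : Type w) [MSys T],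
  LI G → ∀ (X : Subgroup G) (κ : T), IH K T X κ →
  ∀ (e : Ex K G) (L : Subgroup G) (χ ψ : G → ℝ), L ≤ X → IsChar L χ → IsChar L ψ →
  (∀ g ∈ e.supp, g ∈ L) → mle (e.meas T) κ → UE T e L χ ψ

/-- LFX: leading form from the expansion -/
def ST_LFX : Prop := ∀ (K : Type u) [Field K] (G : Type v) [Group G] (T : Type w) [MSys T]
  (X : Subgroup G) (κ : T), IH K T X κ →
  ∀ (e : Ex K G) (L : Subgroup G) (χ ψ : G → ℝ), L ≤ X → IsChar L χ → IsChar L ψ →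
  mle (e.meas T) κ → (¬ ∃ r, e.Hom χ r) → UE T e L χ ψ → LF e L χ ψ

/-- LFC: consequences of the leading form -/
def ST_LFC : Prop := ∀ (K : Type u) [Field K] (G : Type v) [Group G] (e : Ex K G)
  (L : Subgroup G) (χ ψ : G → ℝ), LF e L χ ψ →
  (∃ ε : ℝ, 0 < ε ∧ ∀ i : Idx L χ ψ, |i.t| < ε → e.ev i.s = 0) ∨
  (∃ ε r C : ℝ, 0 < ε ∧ ∀ i : Idx L χ ψ, |i.t| < ε →
    VC i.s (e.ev i.s) ∧ Fil i.s i.f (r - C * |i.t|) (Ring.inverse (e.ev i.s)))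

/-- HBV: bounds for inverses of homogeneous expressions -/
def ST_HBV : Prop := ∀ (K : Type u) [Field K] (G : Type v) [Group G] (T : Type w) [MSys T],
  LI G → ∀ (X : Subgroup G) (κ : T), IH K T X κ →
  ∀ (e : Ex K G), e.meas T = κ → e.Cons → ∀ (L : Subgroup G) (χ ψ : G → ℝ), L ≤ X →
  IsChar L χ → IsChar L ψ → (∀ g ∈ e.supp, g ∈ L) → HB (.inv e) L χ ψ

/-- CST: consistency of expressions of measure `κ` -/
def ST_CST : Prop := ∀ (K : Type u) [Field K] (G : Type v) [Group G] (T : Type w) [MSys T],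
  LI G → ∀ (X : Subgroup G),
  (∀ C : Subgroup G, C ≤ X → C.FG → C ≠ ⊥ → Rk1 C → ¬ OreK K C → Good K (Ker C)) →
  ∀ κ : T, IH K T X κ → ∀ e : Ex K G, (∀ g ∈ e.supp, g ∈ X) → e.meas T = κ → e.Cons

/-- MAI: the main lemma -/
def ST_MAI : Prop := ∀ (K : Type u) [Field K] (G : Type v) [Group G], LI G → ∀ (X : Subgroup G),
  (∀ C : Subgroup G, C ≤ X → C.FG → C ≠ ⊥ → Rk1 C → ¬ OreK K C → Good K (Ker C)) → Good K X

/-- DIV: a good group algebra embeds -/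
def ST_DIV : Prop := ∀ (K : Type u) [Field K] (G : Type v) [Group G], LI G →
  Good K (⊤ : Subgroup G) → ∃ (D : Type (max u v)) (_ : DivisionRing D)
    (f : MonoidAlgebra K G →+* D), Function.Injective f

/-- FIN: the chain criterion -/
def ST_FIN : Prop := ∀ (K : Type u) [Field K] (G : Type v) [Group G], LI G →
  (¬ ∃ H : ℕ → Subgroup G, ∀ n, (H n).FG ∧ H n ≠ ⊥ ∧ Rk1 (H n) ∧ ¬ OreK K (H n) ∧
    H (n + 1) ≤ Ker (H n)) →
  ∃ (D : Type (max u v)) (_ : DivisionRing D) (f : MonoidAlgebra K G →+* D),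
    Function.Injective f

end LCH
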